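import Pool.Agent.Helper73.LL.Defs

/-! Statements of the packets. -/

namespace Pool.Agent.Helper73.LL

open Matrix Equiv Filter Topology Pool.Agent.Helper15.An Pool.Agent.Helper6.W
open scoped ComplexOrder

/-- switching count for closed trajectories which are not tree-like -/
def S_CUT : Prop := ∀ (n : ℕ) (Z : ℕ → Perm (Fin n)) (T f : ℕ) (ps : Fin f → Fin n),
  Nat.card {y : Perm (Fin n) // (∀ i, pos y Z T (ps i) = ps i) ∧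
    (∀ i j, i ≠ j → Apart y Z T (ps i) (ps j)) ∧
    ∀ i, ¬ TL (fun t => lab y Z t (ps i)) T} * (n - f * T) ^ f ≤
      ((T + 2) ^ 8) ^ f * n.factorial

/-- tree-like closed trajectories: many letters fix a point, alone or in disjoint pairs -/
def S_TLP : Prop := ∀ (n : ℕ) (y : Perm (Fin n)) (Z : ℕ → Perm (Fin n)) (N : ℕ) (p : Fin n),
  0 < N → pos y Z (2 * N) p = p → TL (fun t => lab y Z t p) (2 * N) →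
  ∃ (S₁ : Finset ℕ) (S₂ : Finset (ℕ × ℕ)),
    (∀ t ∈ S₁, t < 2 * N ∧ Z t (arr y Z t p) = arr y Z t p) ∧
    (∀ s ∈ S₂, s.1 < s.2 ∧ s.2 < 2 * N ∧ Z s.2 (Z s.1 (arr y Z s.1 p)) = arr y Z s.1 p) ∧
    (∀ s ∈ S₂, ∀ s' ∈ S₂, s ≠ s' → s.1 ≠ s'.1 ∧ s.1 ≠ s'.2 ∧ s.2 ≠ s'.1 ∧ s.2 ≠ s'.2) ∧
    N + 3 ≤ 2 * S₁.card + S₂.card

/-- words with few bad letters rarely have many fixed points -/
def S_EVT : Prop := ∀ (n N q F' F'' f : ℕ) (κ : Perm (Fin n) → ℝ) (P2 : ℝ),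
  0 < N → 2 * q ≤ N → 0 < F' → 16 * (f * (2 * N) ^ 2) ≤ F' → 4 * (f * (2 * N)) ≤ n →
  8 * ((2 * N + 1) ^ 2 * F'') ≤ F' → (∀ g, 0 ≤ κ g) → ∑ g, κ g = 1 → 0 ≤ P2 →
  ∑ g : Perm (Fin n), ∑ h : Perm (Fin n),
    κ g * κ h * (if F'' ≤ fixc (h * g) then (1 : ℝ) else 0) ≤ P2 →
  ∑ y : Perm (Fin n), ∑ Z : Fin (2 * N) → Perm (Fin n), (∏ t, κ (Z t)) *
    (if F' ≤ fixc (pos y (ext Z) (2 * N)) ∧ nbad Z F'' ≤ q then (1 : ℝ) else 0) ≤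
  (n.factorial : ℝ) * ((8 * (2 * N + 2 : ℝ) ^ 8 / F') ^ f +
     (((2 * N : ℝ) ^ 2) * P2) ^ (N - 2 * q))

/-- a nearly uniform weight rarely has many fixed points -/
def S_LAW1 : Prop := ∀ (n : ℕ) (F : PW (Perm (Fin n))) (κ : Perm (Fin n) → ℝ) (r F₀ : ℕ) (δ : ℝ),
  r + 2 ≤ n → 2 * r ≤ F₀ → (∀ g, 0 ≤ κ g) → ∑ g, κ g = 1 → (∀ g, g ∉ Alt n → κ g = 0) →
  0 ≤ δ → δ * (n.descFactorial r : ℝ) ≤ 1 →
  (∀ i, ¬ Triv (F.ρ i) (Alt n) → HasFix (F.ρ i) (stab n r) →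
    (wop (F.ρ i) κ).PosSemidef ∧
    (δ • (1 : Matrix (Fin (F.D i)) (Fin (F.D i)) ℂ) - wop (F.ρ i) κ).PosSemidef) →
  ∑ g, κ g * (if F₀ ≤ fixc g then (1 : ℝ) else 0) ≤ 2 * (2 / F₀) ^ r

/-- the same for the product of two independent elements -/
def S_LAW2 : Prop := ∀ (n : ℕ) (F : PW (Perm (Fin n))) (κ : Perm (Fin n) → ℝ) (r F₀ : ℕ) (δ : ℝ),
  r + 2 ≤ n → 2 * r ≤ F₀ → (∀ g, 0 ≤ κ g) → ∑ g, κ g = 1 → (∀ g, g ∉ Alt n → κ g = 0) →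
  0 ≤ δ → δ * (n.descFactorial r : ℝ) ≤ 1 →
  (∀ i, ¬ Triv (F.ρ i) (Alt n) → HasFix (F.ρ i) (stab n r) →
    (wop (F.ρ i) κ * wop (F.ρ i) κ).PosSemidef ∧
    (δ • (1 : Matrix (Fin (F.D i)) (Fin (F.D i)) ℂ) -
      wop (F.ρ i) κ * wop (F.ρ i) κ).PosSemidef) →
  ∑ g : Perm (Fin n), ∑ h : Perm (Fin n),
    κ g * κ h * (if F₀ ≤ fixc (h * g) then (1 : ℝ) else 0) ≤ 2 * (2 / F₀) ^ r

/-- upper bound of the sum of the traces -/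
def S_TRUP : Prop := ∀ (n D : ℕ) (ρ : Perm (Fin n) →* Matrix (Fin D) (Fin D) ℂ)
  (κ : Perm (Fin n) → ℝ) (N q F' F'' : ℕ) (X a ψ S : ℝ), 2 ≤ n → (∀ g, (ρ g)ᴴ * ρ g = 1) →
  (∀ g, 0 ≤ κ g) → ∑ g, κ g = 1 → (wop ρ κ).PosSemidef →
  (X • (1 : Matrix (Fin D) (Fin D) ℂ) - wop ρ κ).PosSemidef → 0 ≤ X → q < N →
  ∑ g, κ g * (if F'' ≤ fixc g then (1 : ℝ) else 0) ≤ a → 0 ≤ ψ →
  (∀ g : Perm (Fin n), fixc g < F' → ‖trace (ρ g)‖ ≤ D * ψ) →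
  ∑ y : Perm (Fin n), ∑ Z : Fin (2 * N) → Perm (Fin n), (∏ t, κ (Z t)) *
    (if F' ≤ fixc (pos y (ext Z) (2 * N)) ∧ nbad Z F'' ≤ q then (1 : ℝ) else 0) ≤
      (n.factorial : ℝ) * S →
  ∑ y : Alt n, (trace ((wop ρ (gd κ F'') * ((ρ (y : Perm (Fin n)))ᴴ * wop ρ κ *
      ρ (y : Perm (Fin n)))) ^ N)).re ≤
    Fintype.card (Alt n) * (D * (2 ^ N * (a ^ (q + 1) * (X + a) ^ (2 * N - (q + 1))) +
      2 * S + ψ))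

/-- lower bound of the trace -/
def S_TRLO : Prop := ∀ (d : Type) [Fintype d] [DecidableEq d] (T Tg u : Matrix d d ℂ)
  (hT : T.IsHermitian) (δ a : ℝ) (l N : ℕ),
  ((1 : ℝ) • (1 : Matrix d d ℂ) - T).PosSemidef →
  (T - (-1 : ℝ) • (1 : Matrix d d ℂ)).PosSemidef → uᴴ * u = 1 → 0 ≤ δ → δ ≤ 1 →
  Tg.IsHermitian →
  (Tg - (((1 / 2 : ℝ) • ((1 : Matrix d d ℂ) + T)) ^ (2 * l) -
    a • (1 : Matrix d d ℂ))).PosSemidef →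
  0 ≤ a → 8 * a ≤ (1 - δ / 2) ^ (2 * l) → Even N →
  (ovc u (topP_isHermitian hT (1 - δ)) : ℝ) * ((1 - δ / 2) ^ (4 * l) / 8) ^ N ≤
    (trace ((Tg * (uᴴ * ((1 / 2 : ℝ) • ((1 : Matrix d d ℂ) + T)) ^ (2 * l) * u)) ^ N)).re

/-- a near-invariant space of `k + 1` unitaries is controlled by the overlaps of the
near-invariant spaces of `k` of them with their translates by the remaining one -/
def S_OVER : Prop := ∀ (d : Type) [Fintype d] [DecidableEq d] (k : ℕ)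
  (u : Fin (k + 1) → Matrix d d ℂ) (δ δ' R : ℝ), 0 < k → (∀ l, (u l)ᴴ * u l = 1) →
  0 ≤ δ' → δ' + 80 / ((k : ℝ) + 1) ≤ δ → δ ≤ 1 / 100 →
  (∀ l : Fin (k + 1), (ovc (u l) (topP_isHermitian
    (avgRe_isHermitian (fun i : Fin k => u (l.succAbove i))) (1 - δ)) : ℝ) ≤ R) →
  (Fintype.card (TopIdx (avgRe_isHermitian u) (1 - δ')) : ℝ) ≤ 3 * R

/-- the average overlap of a subspace with its translates -/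
def S_DBL : Prop := ∀ (n D : ℕ) (ρ : Perm (Fin n) →* Matrix (Fin D) (Fin D) ℂ), IsIrr ρ →
  2 ≤ n → ∀ (T : Matrix (Fin D) (Fin D) ℂ) (hT : T.IsHermitian) (θ : ℝ),
  ∑ y : Alt n, (ovc (ρ (y : Perm (Fin n))) (topP_isHermitian hT θ) : ℝ) ≤
    8 * Fintype.card (Alt n) * (Fintype.card (TopIdx hT θ) : ℝ) ^ 2 / D

/-- numerical context of the `y`-step on the level `r` -/
structure NC (n : ℕ) (L ell e θ x : ℝ) (p r N q l r1 F1 F2 f : ℕ) : Prop where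
  hn : Real.exp L = n
  hL : 10 ^ 8 ≤ L
  hell : 1000 ≤ ell
  hell2 : 4000 * ell ≤ L
  he : 0 < e
  he1 : e ≤ 1 / 200
  hθ : 100 * ell ≤ θ * L
  hθ1 : θ ≤ 1
  hθ2 : 1 ≤ θ ^ 2 * Real.exp (L / 100)
  hx : 0 ≤ x
  hx1 : x ≤ 1 - θ
  hp : (p : ℝ) ≤ Real.exp (L - ell)
  hp2 : Real.exp (L - ell) ≤ 2 * p
  hpr : p < r
  hr : (r : ℝ) ≤ Real.exp (L - 3 / 4 * ell)
  hNev : Even N
  hN4 : 4 ≤ N
  hN1 : 2 * r ≤ N * p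
  hN2 : N * p ≤ 4 * r
  hq1 : (q : ℝ) ≤ (1 - x) * N / 6
  hq2 : (1 - x) * N / 6 ≤ q + 1
  hr1 : 64 * L * N * r1 ≤ r * ell
  hr2 : r * ell ≤ 64 * L * N * (r1 + 1)
  hl1 : r1 * L ≤ 2 * l * (-Real.log (1 - e / 2))
  hl2 : 2 * l * (-Real.log (1 - e / 2)) ≤ r1 * L + 2 * (-Real.log (1 - e / 2))
  hF1 : (F1 : ℝ) ≤ Real.exp (L - ell / 8)
  hF1' : Real.exp (L - ell / 8) ≤ 2 * F1
  hF2 : Real.exp (L - 3 / 4 * ell) ≤ F2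
  hF2' : (F2 : ℝ) ≤ 2 * Real.exp (L - 3 / 4 * ell)
  hf1 : 64 * f * N ^ 2 ≤ F1
  hf2 : F1 ≤ 128 * f * N ^ 2

/-- existence of the parameters -/
def S_NC : Prop := ∀ e : ℝ, 0 < e → e ≤ 1 / 200 → ∀ᶠ n : ℕ in atTop, ∀ (ell θ x : ℝ) (r : ℕ),
  1000 ≤ ell → 4000 * ell ≤ Real.log n → 100 * ell ≤ θ * Real.log n → θ ≤ 1 →
  1 ≤ θ * (100 * Real.log (Real.log n)) → 0 ≤ x → x ≤ 1 - θ →
  ⌊Real.exp (Real.log n - ell)⌋₊ < r → r ≤ ⌊Real.exp (Real.log n - 3 / 4 * ell)⌋₊ →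
  ∃ N q l r1 F1 F2 f : ℕ,
    NC n (Real.log n) ell e θ x ⌊Real.exp (Real.log n - ell)⌋₊ r N q l r1 F1 F2 f

/-- new threshold -/
noncomputable def xV (x : ℝ) : ℝ := x + (1 - x) ^ 2 / 24

/-- side conditions -/
def S_NSIDE : Prop := ∀ (n : ℕ) (L ell e θ x : ℝ) (p r N q l r1 F1 F2 f : ℕ),
  NC n L ell e θ x p r N q l r1 F1 F2 f →
  q < N ∧ 2 * q ≤ N ∧ 2 * r1 ≤ p ∧ 2 * r1 + 2 ≤ n ∧ 4 * r1 ≤ F2 ∧ 0 < F1 ∧ 4 * r ≤ n ∧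
  16 * (f * (2 * N) ^ 2) ≤ F1 ∧ 4 * (f * (2 * N)) ≤ n ∧ 8 * ((2 * N + 1) ^ 2 * F2) ≤ F1 ∧
  (1 - e / 2) ^ (2 * l) * (n.descFactorial r1 : ℝ) ≤ 1 ∧
  (1 - e / 2) ^ (4 * l) * (n.descFactorial (2 * r1) : ℝ) ≤ 1 ∧
  8 * (2 * (2 / (F2 : ℝ)) ^ r1) ≤ (1 - xV x * e / 2) ^ (2 * l) ∧
  2 * (2 / (F2 : ℝ)) ^ r1 ≤ (1 - x * e / 2) ^ (2 * l)

/-- many bad letters -/
def S_NA : Prop := ∀ (n : ℕ) (L ell e θ x : ℝ) (p r N q l r1 F1 F2 f : ℕ),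
  NC n L ell e θ x p r N q l r1 F1 F2 f →
  2 ^ N * ((2 * (2 / (F2 : ℝ)) ^ r1) ^ (q + 1) *
    ((1 - x * e / 2) ^ (2 * l) + 2 * (2 / (F2 : ℝ)) ^ r1) ^ (2 * N - (q + 1))) ≤
  ((1 - xV x * e / 2) ^ (4 * l) / 8) ^ N * (Real.exp (-(θ ^ 2 * (r * ell) / 20000)) / 4)

/-- matched letters -/
def S_NB : Prop := ∀ (n : ℕ) (L ell e θ x : ℝ) (p r N q l r1 F1 F2 f : ℕ),
  NC n L ell e θ x p r N q l r1 F1 F2 f →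
  2 * (((2 * N : ℝ) ^ 2) * (2 * (2 / (F2 : ℝ)) ^ (2 * r1))) ^ (N - 2 * q) ≤
  ((1 - xV x * e / 2) ^ (4 * l) / 8) ^ N * (Real.exp (-(θ ^ 2 * (r * ell) / 20000)) / 4)

/-- cut trajectories -/
def S_NCC : Prop := ∀ (n : ℕ) (L ell e θ x : ℝ) (p r N q l r1 F1 F2 f : ℕ),
  NC n L ell e θ x p r N q l r1 F1 F2 f →
  2 * (8 * (2 * N + 2 : ℝ) ^ 8 / F1) ^ f ≤
  ((1 - xV x * e / 2) ^ (4 * l) / 8) ^ N * (Real.exp (-(θ ^ 2 * (r * ell) / 20000)) / 4)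

/-- character bound -/
def S_ND : Prop := ∀ (n : ℕ) (L ell e θ x : ℝ) (p r N q l r1 F1 F2 f : ℕ),
  NC n L ell e θ x p r N q l r1 F1 F2 f →
  (2 * F1 / n + 14 * Real.sqrt (r / n)) ^ r ≤
  ((1 - xV x * e / 2) ^ (4 * l) / 8) ^ N * (Real.exp (-(θ ^ 2 * (r * ell) / 20000)) / 4)

end Pool.Agent.Helper73.LL
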