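import Pool.Agent.Helper39.LL.NB
import Pool.Agent.Helper51.LL.NSide

/-! Many bad letters. -/

namespace Pool.Agent.Helper73.LL

open Pool.Agent.Helper39.LL

theorem log_chord {e x : ℝ} (hx : 0 ≤ x) (hx1 : x ≤ 1) (he1 : e ≤ 1/200) :
    -(x * (-Real.log (1 - e/2))) ≤ Real.log (1 - x * e / 2) := by
  have h1 := (strictConcaveOn_log_Ioi.concaveOn).2 (Set.mem_Ioi.2 (by norm_num : (0:ℝ) < 1))
    (Set.mem_Ioi.2 (by linarith : (0:ℝ) < 1 - e/2))
    (by linarith : (0:ℝ) ≤ 1 - x) hx (by ring)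
  simp only [smul_eq_mul, Real.log_one, mul_zero, zero_add, mul_one] at h1
  have h2 : 1 - x + x * (1 - e/2) = 1 - x * e / 2 := by ring
  rw [h2] at h1
  linarith

theorem log_diff {e x : ℝ} (hx : 0 ≤ x) (hx1 : x ≤ 1) (he : 0 < e) (he1 : e ≤ 1/200) :
    Real.log (1 - x * e / 2) - Real.log (1 - xV x * e / 2) ≤
      (1 - x) ^ 2 / 24 * (-Real.log (1 - e/2)) * (1003 / 1000) := by
  have hV0 := xV_nonneg hx
  have hV1 := xV_le_one hx hx1
  have hVx : xV x - x = (1 - x) ^ 2 / 24 := by unfold xV; ring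
  have h1 : 0 < 1 - xV x * e / 2 := by
    have : xV x * e ≤ 1 * (1/200) := by gcongr
    linarith
  have h1' : 399 / 400 ≤ 1 - xV x * e / 2 := by
    have : xV x * e ≤ 1 * (1/200) := by gcongr
    linarith
  have h2 : 0 < 1 - x * e / 2 := by
    have : x * e ≤ 1 * (1/200) := by gcongr
    linarith
  rw [← Real.log_div h2.ne' h1.ne']
  have h3 := Real.log_le_sub_one_of_pos (div_pos h2 h1)
  refine h3.trans ?_
  have h4 : (1 - x * e / 2) / (1 - xV x * e / 2) - 1 =
      ((xV x - x) * (e / 2)) / (1 - xV x * e / 2) := by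
    rw [div_sub_one h1.ne']
    congr 1
    ring
  rw [h4, hVx, div_le_iff₀ h1]
  have h5 : e / 2 ≤ -Real.log (1 - e/2) := by
    have := Real.log_le_sub_one_of_pos (show (0:ℝ) < 1 - e/2 by linarith)
    linarith
  have h6 : 0 ≤ (1 - x) ^ 2 / 24 := by positivity
  have h7 : 0 ≤ -Real.log (1 - e/2) := by linarith
  calc (1 - x) ^ 2 / 24 * (e / 2) ≤ (1 - x) ^ 2 / 24 * (-Real.log (1 - e/2)) := by gcongr
    _ ≤ (1 - x) ^ 2 / 24 * (-Real.log (1 - e/2)) * ((1003 / 1000) * (399 / 400)) := by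
      have : 0 ≤ (1 - x) ^ 2 / 24 * (-Real.log (1 - e/2)) := mul_nonneg h6 h7
      nlinarith
    _ = (1 - x) ^ 2 / 24 * (-Real.log (1 - e/2)) * (1003 / 1000) * (399 / 400) := by ring
    _ ≤ (1 - x) ^ 2 / 24 * (-Real.log (1 - e/2)) * (1003 / 1000) * (1 - xV x * e / 2) := by
      have : 0 ≤ (1 - x) ^ 2 / 24 * (-Real.log (1 - e/2)) * (1003 / 1000) := by positivity
      gcongr

/-- `r1` is large -/
theorem r1_large {n : ℕ} {L ell e θ x : ℝ} {p r N q l r1 F1 F2 f : ℕ}
    (h : NC n L ell e θ x p r N q l r1 F1 F2 f) : Real.exp (L / 100) ≤ r1 := by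
  have hL := h.hL
  have hell := h.hell
  have hell2 := h.hell2
  have hL0 : 0 < L := by linarith
  have hN4 : (4:ℝ) ≤ N := by exact_mod_cast h.hN4
  have hN0 : (0:ℝ) < N := by linarith
  have hN2' : (N * p : ℝ) ≤ 4 * r := by exact_mod_cast h.hN2
  have h1 : Real.exp (L - ell) ≤ 2 * p := h.hp2
  have h2 : (N:ℝ) * Real.exp (L - ell) ≤ 8 * r := by
    calc (N:ℝ) * Real.exp (L-ell) ≤ N * (2 * p) := by gcongr
      _ = 2 * (N * p) := by ring
      _ ≤ 2 * (4 * r) := by gcongr
      _ = 8 * r := by ring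
  have h3 := h.hr2
  have h4 : (N:ℝ) * (Real.exp (L - ell) * ell) ≤ N * (512 * L * (r1 + 1)) := by
    calc (N:ℝ) * (Real.exp (L - ell) * ell) = (N:ℝ) * Real.exp (L - ell) * ell := by ring
      _ ≤ 8 * r * ell := by gcongr
      _ = 8 * (r * ell) := by ring
      _ ≤ 8 * (64 * L * N * (r1 + 1)) := by gcongr
      _ = N * (512 * L * (r1 + 1)) := by ring
  have h5 := le_of_mul_le_mul_left h4 hN0
  have h6 : Real.exp (L / 100) * Real.exp (L / 4) ≤ Real.exp (L - ell) := by
    rw [← Real.exp_add]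
    apply Real.exp_le_exp.2
    linarith
  have h7 : L * L / 32 ≤ Real.exp (L / 4) := by
    have h8 : L / 8 + 1 ≤ Real.exp (L / 8) := Real.add_one_le_exp _
    have h9 : Real.exp (L / 4) = Real.exp (L / 8) * Real.exp (L / 8) := by
      rw [← Real.exp_add]; congr 1; ring
    have h10 := Real.quadratic_le_exp_of_nonneg (show 0 ≤ L / 4 by positivity)
    nlinarith
  have hE : 1 ≤ Real.exp (L / 100) := Real.one_le_exp (by positivity)
  have h8 : Real.exp (L / 100) * (L * L / 32) * 1000 ≤ 512 * L * (r1 + 1) := by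
    calc Real.exp (L / 100) * (L * L / 32) * 1000 ≤
        Real.exp (L / 100) * Real.exp (L / 4) * ell := by gcongr
      _ ≤ Real.exp (L - ell) * ell := by gcongr
      _ ≤ _ := h5
  have h9 : L * (Real.exp (L / 100) * 2) ≤ L * (r1 + 1) := by
    have h10 : (10:ℝ) ^ 8 ≤ L := hL
    have h11 : Real.exp (L / 100) * (L * 10 ^ 8 / 32) * 1000 ≤
        Real.exp (L / 100) * (L * L / 32) * 1000 := by gcongr
    nlinarith [Real.exp_pos (L / 100)]
  have h10 := le_of_mul_le_mul_left h9 hL0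
  linarith

theorem na : S_NA := by
  intro n L ell e θ x p r N q l r1 F1 F2 f h
  obtain ⟨hθ0, hNe, hr11⟩ := nc_basic h
  obtain ⟨hlogF, hlogN⟩ := logs h
  have hr1big := r1_large h
  obtain ⟨sqN, s2, s3, s4, s5, s6, s7, s8, s9, s10, s11, s12, s13, hay⟩ :=
    Pool.Agent.Helper51.LL.nside n L ell e θ x p r N q l r1 F1 F2 f h
  have hL := h.hL
  have hL0 : 0 < L := by linarith
  have hell := h.hell
  have hell2 := h.hell2
  have he := h.he
  have he1 := h.he1
  have hθ := h.hθ
  have hθ1 := h.hθ1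
  have hx := h.hx
  have hx1 := h.hx1
  have hx1' : x ≤ 1 := by linarith
  have hN4 : (4:ℝ) ≤ N := by exact_mod_cast h.hN4
  have hr11' : (1:ℝ) ≤ r1 := by exact_mod_cast hr11
  have hq2 := h.hq2
  have hl1 := h.hl1
  have hl2 := h.hl2
  have hF2pos : (0:ℝ) < F2 := lt_of_lt_of_le (Real.exp_pos _) h.hF2
  obtain ⟨hε0, hε1⟩ := eps_bd he he1
  have hchord := log_chord hx hx1' he1
  have hdiff := log_diff hx hx1' he he1
  have hV0 := xV_nonneg hx
  have hV1 := xV_le_one hx hx1'
  set ε : ℝ := -Real.log (1 - e/2) with hε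
  have hlog2 := Real.log_two_lt_d9
  have hlog20 := Real.log_two_gt_d9
  have hY0 : 0 < 1 - x * e / 2 := by
    have : x * e ≤ 1 * (1/200) := by gcongr
    linarith
  have hVpos : 0 < 1 - xV x * e / 2 := by
    have : xV x * e ≤ 1 * (1/200) := by gcongr
    linarith
  set a : ℝ := 2 * (2 / (F2 : ℝ)) ^ r1 with ha
  have ha0 : 0 < a := by positivity
  set Y : ℝ := (1 - x * e / 2) ^ (2 * l) with hY
  have hYpos : 0 < Y := by positivity
  have hq1N : q + 1 ≤ N := sqN
  have hm : ((2 * N - (q + 1) : ℕ) : ℝ) = 2 * N - (q + 1) := by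
    rw [Nat.cast_sub (by omega)]; push_cast; ring
  have h1 : 2 ^ N * (a ^ (q + 1) * (Y + a) ^ (2 * N - (q + 1))) ≤
      2 ^ N * (a ^ (q + 1) * (2 * Y) ^ (2 * N - (q + 1))) := by
    gcongr
    linarith
  refine h1.trans ?_
  have hA : 0 < (2:ℝ) ^ N * (a ^ (q + 1) * (2 * Y) ^ (2 * N - (q + 1))) := by positivity
  have hB : 0 < ((1 - xV x * e / 2) ^ (4 * l) / 8) ^ N *
      (Real.exp (-(θ ^ 2 * (r * ell) / 20000)) / 4) := by positivity
  rw [← Real.log_le_log_iff hA hB]
  have hloga : Real.log a = Real.log 2 + r1 * (Real.log 2 - Real.log F2) := by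
    rw [ha, Real.log_mul (by norm_num) (by positivity), Real.log_pow,
      Real.log_div (by norm_num) hF2pos.ne']
  have hlogY : Real.log Y = 2 * l * Real.log (1 - x * e / 2) := by
    rw [hY, Real.log_pow]
    push_cast
    ring
  have hlogA : Real.log ((2:ℝ) ^ N * (a ^ (q + 1) * (2 * Y) ^ (2 * N - (q + 1)))) =
      N * Real.log 2 + ((q + 1) * Real.log a + (2 * N - (q + 1)) * (Real.log 2 + Real.log Y)) := by
    rw [Real.log_mul (by positivity) (by positivity), Real.log_pow,
      Real.log_mul (by positivity) (by positivity), Real.log_pow, Real.log_pow, hm,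
      Real.log_mul (by norm_num) hYpos.ne']
    push_cast
    ring
  have hlog8 : Real.log 8 = 3 * Real.log 2 := by
    rw [show (8:ℝ) = 2 ^ 3 by norm_num, Real.log_pow]; norm_num
  have hlog4 : Real.log 4 = 2 * Real.log 2 := by
    rw [show (4:ℝ) = 2 ^ 2 by norm_num, Real.log_pow]; norm_num
  have hlogB : Real.log (((1 - xV x * e / 2) ^ (4 * l) / 8) ^ N *
      (Real.exp (-(θ ^ 2 * (r * ell) / 20000)) / 4)) =
      N * (4 * l * Real.log (1 - xV x * e / 2) - Real.log 8) +
        (-(θ ^ 2 * (r * ell) / 20000) - Real.log 4) := by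
    rw [Real.log_mul (by positivity) (by positivity), Real.log_pow,
      Real.log_div (by positivity) (by norm_num), Real.log_pow,
      Real.log_div (Real.exp_pos _).ne' (by norm_num), Real.log_exp]
    push_cast
    ring
  rw [hlogA, hlogB, hlog8, hlog4]
  -- the quantities
  set W : ℝ := r1 * L with hW
  have hW0 : 0 < W := by positivity
  set u : ℝ := 1 - x with hu
  have huθ : θ ≤ u := by linarith
  have hu1 : u ≤ 1 := by linarith
  have hu0 : 0 < u := by linarith
  -- the gain of one bad letter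
  have hgain : 992 / 1000 * (u * W) ≤ -Real.log a + Real.log Y + Real.log 2 := by
    have g1 : -(x * (W + 2 * ε)) ≤ Real.log Y := by
      rw [hlogY]
      calc -(x * (W + 2 * ε)) ≤ -(x * (2 * l * ε)) := by
            have : x * (2 * l * ε) ≤ x * (W + 2 * ε) := by gcongr
            linarith
        _ = 2 * l * (-(x * ε)) := by ring
        _ ≤ 2 * l * Real.log (1 - x * e / 2) :=
            mul_le_mul_of_nonneg_left hchord (by positivity)
    have g2 : r1 * (L - 3/4 * ell - Real.log 2) ≤ -(r1 * (Real.log 2 - Real.log F2)) := by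
      have : r1 * (L - 3/4 * ell - Real.log 2) ≤ r1 * (Real.log F2 - Real.log 2) := by
        apply mul_le_mul_of_nonneg_left _ (by positivity)
        linarith
      linarith
    have g3 : 100 * ell * r1 ≤ u * W := by
      calc 100 * ell * r1 ≤ (u * L) * r1 := by
            apply mul_le_mul_of_nonneg_right _ (by positivity)
            calc 100 * ell ≤ θ * L := hθ
              _ ≤ u * L := by gcongr
        _ = u * W := by rw [hW]; ring
    have g4 : 1000 * (r1 : ℝ) ≤ ell * r1 := by gcongr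
    have g5 : x * ε ≤ 1 * (1/100) := by gcongr
    rw [hloga]
    have g6 : r1 * (L - 3/4 * ell - Real.log 2) = W - 3/4 * (ell * r1) - Real.log 2 * r1 := by
      rw [hW]; ring
    have g7 : x * (W + 2 * ε) = W - u * W + 2 * (x * ε) := by rw [hu]; ring
    have g8 : Real.log 2 * r1 ≤ 1 * r1 := by gcongr; linarith
    rw [g6] at g2
    rw [g7] at g1
    linarith
  -- number of bad letters
  have hq : u * N / 6 ≤ q + 1 := hq2
  have hG : 165 / 1000 * (u ^ 2 * (N * W)) ≤ (q + 1) * (-Real.log a + Real.log Y + Real.log 2) := by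
    calc 165 / 1000 * (u ^ 2 * (N * W)) ≤ u * N / 6 * (992 / 1000 * (u * W)) := by
          have : 0 ≤ u ^ 2 * (N * W) := by positivity
          have e1 : u * N / 6 * (992 / 1000 * (u * W)) = 992 / 6000 * (u ^ 2 * (N * W)) := by ring
          rw [e1]
          nlinarith
      _ ≤ (q + 1) * (-Real.log a + Real.log Y + Real.log 2) := by gcongr
  -- the loss from the threshold
  have hLoss : N * (4 * l * (Real.log (1 - x * e / 2) - Real.log (1 - xV x * e / 2))) ≤
      84 / 1000 * (u ^ 2 * (N * W)) + N / 100 := by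
    have l1 : 4 * (l:ℝ) * (Real.log (1 - x * e / 2) - Real.log (1 - xV x * e / 2)) ≤
        4 * l * (u ^ 2 / 24 * ε * (1003 / 1000)) := by
      apply mul_le_mul_of_nonneg_left hdiff (by positivity)
    have l2 : 4 * (l:ℝ) * (u ^ 2 / 24 * ε * (1003 / 1000)) ≤
        u ^ 2 / 12 * (1003 / 1000) * (W + 2 * ε) := by
      have : u ^ 2 / 12 * (1003 / 1000) * (2 * l * ε) ≤
          u ^ 2 / 12 * (1003 / 1000) * (W + 2 * ε) := by gcongr
      linarith
    have l3 : u ^ 2 ≤ 1 := pow_le_one₀ hu0.le hu1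
    have l4 : u ^ 2 / 12 * (1003 / 1000) * (W + 2 * ε) ≤ 84 / 1000 * (u ^ 2 * W) + 1 / 100 := by
      have l5 : u ^ 2 * ε ≤ 1 * (1 / 100) := by gcongr
      have l6 : 0 ≤ u ^ 2 * W := by positivity
      nlinarith
    calc N * (4 * l * (Real.log (1 - x * e / 2) - Real.log (1 - xV x * e / 2))) ≤
        N * (84 / 1000 * (u ^ 2 * W) + 1 / 100) := by
          apply mul_le_mul_of_nonneg_left _ (Nat.cast_nonneg N)
          linarith
      _ = _ := by ring
  -- the exponent
  have hExp : θ ^ 2 * (r * ell) / 20000 ≤ 64 / 10000 * (u ^ 2 * (N * W)) := by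
    have hr2 := h.hr2
    have e1 : (r:ℝ) * ell ≤ 128 * (N * W) := by
      have : 64 * L * N * (r1 + 1) ≤ 64 * L * N * (2 * r1) := by
        apply mul_le_mul_of_nonneg_left _ (by positivity)
        linarith
      calc (r:ℝ) * ell ≤ 64 * L * N * (r1 + 1) := hr2
        _ ≤ 64 * L * N * (2 * r1) := this
        _ = 128 * (N * W) := by rw [hW]; ring
    have e2 : θ ^ 2 ≤ u ^ 2 := pow_le_pow_left₀ hθ0.le huθ 2
    calc θ ^ 2 * (r * ell) / 20000 ≤ u ^ 2 * (128 * (N * W)) / 20000 := by gcongr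
      _ = 64 / 10000 * (u ^ 2 * (N * W)) := by ring
  -- the constants
  have hcon : 1000 * (N:ℝ) ≤ u ^ 2 * (N * W) := by
    have c1 : 1 ≤ u ^ 2 * Real.exp (L / 100) := by
      refine h.hθ2.trans ?_
      have : θ ^ 2 ≤ u ^ 2 := pow_le_pow_left₀ hθ0.le huθ 2
      gcongr
    have c2 : u ^ 2 * Real.exp (L / 100) ≤ u ^ 2 * r1 := by gcongr
    have c3 : 1 * L ≤ u ^ 2 * r1 * L := by
      apply mul_le_mul_of_nonneg_right _ hL0.le
      linarith
    have c4 : 1000 ≤ u ^ 2 * r1 * L := by linarith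
    calc 1000 * (N:ℝ) ≤ u ^ 2 * r1 * L * N := by gcongr
      _ = u ^ 2 * (N * W) := by rw [hW]; ring
  have hfin : N * Real.log 2 + ((q + 1) * Real.log a + (2 * N - (q + 1)) *
      (Real.log 2 + Real.log Y)) = 3 * N * Real.log 2 -
      (q + 1) * (-Real.log a + Real.log Y + Real.log 2) +
      N * (4 * l * Real.log (1 - x * e / 2)) := by
    rw [hlogY]; ring
  rw [hfin]
  have hN2 : N * Real.log 2 ≤ N * 1 := by gcongr; linarith
  have hLoss' : N * (4 * l * Real.log (1 - x * e / 2)) -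
      N * (4 * l * Real.log (1 - xV x * e / 2)) ≤ 84 / 1000 * (u ^ 2 * (N * W)) + N / 100 := by
    rw [← mul_sub, ← mul_sub]; exact hLoss
  have e1 : N * (4 * l * Real.log (1 - xV x * e / 2) - 3 * Real.log 2) =
      N * (4 * l * Real.log (1 - xV x * e / 2)) - 3 * (N * Real.log 2) := by ring
  rw [e1]
  have e2 : 3 * N * Real.log 2 = 3 * (N * Real.log 2) := by ring
  rw [e2]
  linarith

end Pool.Agent.Helper73.LL
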