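import Pool.Agent.Helper73.LL.Final
import Pool.Agent.Helper73.LL.NA
import Pool.Agent.Helper14.LL.Tlp
import Pool.Agent.Helper53.LL.Cut
import Pool.Agent.Helper69.EVT.Evt
import Pool.Agent.Helper98.LL.Trup
import Pool.Agent.Helper4.LL.Trlo
import Pool.Agent.Helper28.LL.Over
import Pool.Agent.Helper22.LL.NCD
import Pool.Agent.Helper39.LL.NB
import Pool.Agent.Helper71.LL.NC
import Pool.Agent.Helper51.LL.Law
import Pool.Agent.Helper51.LL.NSide
import Pool.Agent.Helper96.LL.Dbl

/-! All packets. -/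

namespace Pool.Agent.Helper73.LL

theorem packs : Packs where
  ovr := Pool.Agent.Helper28.LL.over_pkt
  dbl := Pool.Agent.Helper96.LL.dbl
  evt := Pool.Agent.Helper69.EVT.evt Pool.Agent.Helper53.LL.s_cut Pool.Agent.Helper14.LL.tlp
  law1 := Pool.Agent.Helper51.LL.law1
  law2 := Pool.Agent.Helper51.LL.law2
  trup := Helper98.Trup.trup
  trlo := Pool.Agent.Helper4.LL.trlo
  nc := Pool.Agent.Helper71.LLNC.nc
  nside := Pool.Agent.Helper51.LL.nside
  na := na
  nb := Pool.Agent.Helper39.LL.nb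
  ncc := Pool.Agent.Helper22.LL.ncc
  nd := Pool.Agent.Helper22.LL.nd

end Pool.Agent.Helper73.LL
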