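import Pool.Agent.Helper73.LL.Params

/-! Climbing the levels. -/

set_option linter.unusedSectionVars false

namespace Pool.Agent.Helper73.LL

open Matrix Equiv Filter Topology Pool.Agent.Helper15.An Pool.Agent.Helper6.W
  Pool.Agent.Helper6.FixK
open scoped ComplexOrder

/-- the `i`-th level is `exp (-el n i) n` -/
noncomputable def el (n i : ℕ) : ℝ := (3 / 4) ^ i * (Real.log n / 4000)

/-- relative loss at the `i`-th level -/
noncomputable def th (n i : ℕ) : ℝ := 1 / (100 * Real.log (Real.log n)) + (3 / 4) ^ i / 40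

/-- gap at the `i`-th level -/
noncomputable def ee (e0 : ℝ) (n i : ℕ) : ℝ := e0 * ∏ j ∈ Finset.range i, (1 - th n j)

/-- number of sweeps at one level -/
noncomputable def SS (n : ℕ) : ℕ := ⌈4800 * Real.log (Real.log n)⌉₊

/-- number of elements used at one level -/
noncomputable def DD (n : ℕ) : ℕ := SS n * (hN n + 1)

/-- number of elements at the start -/
noncomputable def ks (e0 : ℝ) (n : ℕ) : ℕ := ⌈4 * 10 ^ 8 * Real.log (Real.log n) ^ 3 / e0⌉₊

theorem th_bounds {n i : ℕ} (h : 1 ≤ Real.log (Real.log n)) : 0 < th n i ∧ th n i ≤ 1 := by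
  unfold th
  have h1 : (0 : ℝ) < (3 / 4) ^ i := by positivity
  have h2 : ((3 : ℝ) / 4) ^ i ≤ 1 := pow_le_one₀ (by norm_num) (by norm_num)
  have h3 : 1 / (100 * Real.log (Real.log n)) ≤ 1 / 100 := by
    apply one_div_le_one_div_of_le (by norm_num)
    linarith
  have h4 : 0 < 1 / (100 * Real.log (Real.log n)) := by positivity
  constructor
  · positivity
  · linarith

theorem prod_lower {n : ℕ} (h : 1 ≤ Real.log (Real.log n)) (i : ℕ) :
    1 - i / (100 * Real.log (Real.log n)) - (1 - (3 / 4) ^ i) / 10 ≤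
      ∏ j ∈ Finset.range i, (1 - th n j) ∧
    0 ≤ ∏ j ∈ Finset.range i, (1 - th n j) ∧ ∏ j ∈ Finset.range i, (1 - th n j) ≤ 1 := by
  induction i with
  | zero => norm_num
  | succ i ih =>
    rw [Finset.prod_range_succ]
    obtain ⟨h1, h2⟩ := th_bounds (n := n) (i := i) h
    obtain ⟨h3, h4, h5⟩ := ih
    refine ⟨?_, mul_nonneg h4 (by linarith), by nlinarith⟩
    have h6 : th n i = 1 / (100 * Real.log (Real.log n)) + (3 / 4) ^ i / 40 := rfl
    have h7 : (1 : ℝ) - ((i + 1 : ℕ) : ℝ) / (100 * Real.log (Real.log n)) -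
        (1 - (3 / 4) ^ (i + 1)) / 10 =
        1 - i / (100 * Real.log (Real.log n)) - (1 - (3 / 4) ^ i) / 10 - th n i := by
      rw [h6, pow_succ]
      push_cast
      ring
    rw [h7]
    nlinarith

theorem ee_bounds {e0 : ℝ} (he0 : 0 < e0) {n i : ℕ} (h : 1 ≤ Real.log (Real.log n))
    (hi : (i : ℝ) ≤ 4 * Real.log (Real.log n)) : e0 / 2 ≤ ee e0 n i ∧ ee e0 n i ≤ e0 := by
  obtain ⟨h1, h2, h3⟩ := prod_lower h i
  have h4 : (0 : ℝ) < (3 / 4) ^ i := by positivity
  have h5 : (i : ℝ) / (100 * Real.log (Real.log n)) ≤ 1 / 25 := by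
    rw [div_le_iff₀ (by positivity)]
    linarith
  unfold ee
  constructor
  · nlinarith
  · nlinarith

/-- climbing the levels -/
theorem climb (P : Packs) {e0 : ℝ} (he0 : 0 < e0) (he1 : e0 ≤ 1 / 200) : ∀ᶠ n : ℕ in atTop,
    ∀ (F : PW (Perm (Fin n))) (K Q : ℝ) (I : ℕ), (I : ℝ) ≤ 4 * Real.log (Real.log n) →
    (∀ j, j < I → 1000 ≤ el n j) → (ks e0 n : ℝ) + I * DD n ≤ K → ((n : ℝ) ^ 2)⁻¹ ≤ Q →
    Fl (fun z : Fin (ks e0 n) → Alt n =>
      Good F (tupW z) ⌊Real.exp (Real.log n - el n 0)⌋₊ e0) Q →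
    ∀ k, k = ks e0 n + I * DD n → Fl (fun z : Fin k → Alt n =>
      Good F (tupW z) ⌊Real.exp (Real.log n - el n I)⌋₊ (e0 / 2)) ((2 * K) ^ (I * DD n) * Q) := by
  filter_upwards [sc_exists P.nc,
    (Real.tendsto_log_atTop.comp tendsto_log_nat).eventually_ge_atTop 1,
    tendsto_log_nat.eventually_ge_atTop 1, eventually_ge_atTop 1]
    with n hsc hl2 hL hn F K Q I hI hel hK hQ hs
  simp only [Function.comp_apply] at hl2
  set L : ℝ := Real.log n with hLdef
  set l2 : ℝ := Real.log L with hl2def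
  have key : ∀ i, i ≤ I → ∀ k, k = ks e0 n + i * DD n → Fl (fun z : Fin k → Alt n =>
      Good F (tupW z) ⌊Real.exp (L - el n i)⌋₊ (ee e0 n i)) ((2 * K) ^ (i * DD n) * Q) := by
    intro i
    induction i with
    | zero =>
      intro _ k hk
      have : k = ks e0 n := by omega
      subst this
      have h1 : ee e0 n 0 = e0 := by simp [ee]
      rw [h1]
      exact hs.mono (fun z hz => hz) (by simp)
    | succ i ih =>
      intro hi k hk
      have h1 := ih (by omega) (ks e0 n + i * DD n) rfl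
      have hiI : (i : ℝ) ≤ 4 * l2 := by
        have : (i : ℝ) ≤ I := by exact_mod_cast (by omega : i ≤ I)
        linarith
      obtain ⟨hee1, hee2⟩ := ee_bounds he0 (n := n) (i := i) hl2 hiI
      obtain ⟨hth1, hth2⟩ := th_bounds (n := n) (i := i) hl2
      have hell := hel i (by omega)
      have hp1 : ((3 : ℝ) / 4) ^ i ≤ 1 := pow_le_one₀ (by norm_num) (by norm_num)
      have hp0 : (0 : ℝ) < (3 / 4) ^ i := by positivity
      have hel4 : 4000 * el n i ≤ L := by
        unfold el
        rw [← hLdef]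
        nlinarith
      have hthL : 100 * el n i ≤ th n i * L := by
        unfold el th
        rw [← hLdef, ← hl2def]
        have : 0 ≤ 1 / (100 * l2) * L := by positivity
        nlinarith
      have hth100 : 1 ≤ th n i * (100 * l2) := by
        unfold th
        rw [← hLdef, ← hl2def]
        have h2 : 1 / (100 * l2) * (100 * l2) = 1 := by field_simp
        have h3 : 0 ≤ (3 / 4 : ℝ) ^ i / 40 * (100 * l2) := by positivity
        nlinarith
      have hee0 : 0 < ee e0 n i := by linarith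
      have hks : 2 * 10 ^ 8 * l2 ^ 3 / ee e0 n i ≤ ks e0 n := by
        have h2 : 4 * 10 ^ 8 * l2 ^ 3 / e0 ≤ ks e0 n := Nat.le_ceil _
        refine le_trans ?_ h2
        rw [div_le_div_iff₀ hee0 he0]
        have h3 : 0 < l2 ^ 3 := by positivity
        nlinarith
      have c := hsc (ee e0 n i) (el n i) (th n i) (ks e0 n) hee0 (by linarith) hell hel4 hthL
        hth2 hth100 hks
      have hKi : ((ks e0 n + i * DD n : ℕ) : ℝ) + SS n * (hN n + 1) ≤ K := by
        refine le_trans ?_ hK
        have h2 : ((i + 1 : ℕ) : ℝ) * DD n ≤ I * DD n := by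
          have : ((i + 1 : ℕ) : ℝ) ≤ I := by exact_mod_cast hi
          gcongr
        have h3 : (DD n : ℝ) = SS n * (hN n + 1) := by unfold DD; push_cast; ring
        rw [← h3]
        push_cast at h2 ⊢
        linarith
      have hSS : 48 ≤ th n i * SS n := by
        have h2 : 4800 * l2 ≤ SS n := Nat.le_ceil _
        calc (48 : ℝ) = 1 * 48 := by ring
          _ ≤ th n i * (100 * l2) * 48 := by gcongr
          _ = th n i * (4800 * l2) := by ring
          _ ≤ _ := by gcongr
      have hk0 : (1 : ℝ) ≤ K := by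
        have h2 : (0 : ℝ) < 4 * 10 ^ 8 * l2 ^ 3 / e0 := by positivity
        have h3 : 0 < ks e0 n := Nat.ceil_pos.2 h2
        have h4 : (1 : ℝ) ≤ ks e0 n := by exact_mod_cast h3
        have h5 : (0 : ℝ) ≤ I * DD n := by positivity
        linarith
      have hn0 : (0 : ℝ) < n := by exact_mod_cast hn
      have hQ0 : 0 < Q := by
        have : 0 < ((n : ℝ) ^ 2)⁻¹ := by positivity
        linarith
      have hQi : ((n : ℝ) ^ 2)⁻¹ ≤ (2 * K) ^ (i * DD n) * Q := by
        have : (1 : ℝ) ≤ (2 * K) ^ (i * DD n) := one_le_pow₀ (by linarith)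
        nlinarith
      have h2 := level P c F (k := ks e0 n + i * DD n) (S := SS n) (by omega) hKi hSS hQi h1
        (k' := k) (by rw [hk]; unfold DD; ring)
      have h3 : el n (i + 1) = 3 / 4 * el n i := by unfold el; rw [pow_succ]; ring
      have h4 : ee e0 n (i + 1) = (1 - th n i) * ee e0 n i := by
        unfold ee; rw [Finset.prod_range_succ]; ring
      rw [h3, h4]
      refine h2.mono (fun z hz => hz) (le_of_eq ?_)
      rw [← mul_assoc, ← pow_add]
      congr 2
      unfold DD
      ring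
  intro k hk
  obtain ⟨hee1, hee2⟩ := ee_bounds he0 (n := n) (i := I) hl2 hI
  exact (key I le_rfl k hk).mono (fun z hz => good_weaken hz hee1) le_rfl

end Pool.Agent.Helper73.LL
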