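import Pool.Agent.Helper6.W.Step

/-! Definitions for the repeated lossless stages. -/

namespace Pool.Agent.Helper73.LL

open Matrix Equiv Pool.Agent.Helper15.An Pool.Agent.Helper6.W
open scoped ComplexOrder

variable {n : ℕ}

/-- position after the crossing at time `t` (the input of the letter `Z t`) -/
def arr (y : Perm (Fin n)) (Z : ℕ → Perm (Fin n)) (t : ℕ) : Perm (Fin n) := cr y t * pos y Z t

/-- number of occurrences of the label `c` at the times in `[u, v)` -/
def occ (e : ℕ → Fin n) (c : Fin n) (u v : ℕ) : ℕ :=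
  ((Finset.Ico u v).filter fun t => e t = c).card

/-- tree-like sequences of labels of length `T`: every label occurs an even number of times, and
between two occurrences of a label every other label occurs an even number of times -/
structure TL (e : ℕ → Fin n) (T : ℕ) : Prop where
  all : ∀ c, Even (occ e c 0 T)
  mid : ∀ u v, u < v → v < T → e u = e v → ∀ c, c ≠ e u → Even (occ e c u v)

section mat
variable {d : Type} [Fintype d] [DecidableEq d]

set_option linter.unusedSectionVars false

/-- spectral projection of `T` onto the eigenvalues at least `θ` -/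
noncomputable def topP {T : Matrix d d ℂ} (hT : T.IsHermitian) (θ : ℝ) : Matrix d d ℂ :=
  topIso hT θ * (topIso hT θ)ᴴ

theorem topP_isHermitian {T : Matrix d d ℂ} (hT : T.IsHermitian) (θ : ℝ) :
    (topP hT θ).IsHermitian :=
  isHermitian_mul_conjTranspose_self _

/-- `(uᴴ P u) P (uᴴ P u)` -/
def ovM (P u : Matrix d d ℂ) : Matrix d d ℂ := (uᴴ * P * u) * P * (uᴴ * P * u)

theorem ovM_isHermitian {P : Matrix d d ℂ} (u : Matrix d d ℂ) (hP : P.IsHermitian) :
    (ovM P u).IsHermitian := by
  unfold ovM Matrix.IsHermitian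
  simp only [conjTranspose_mul, conjTranspose_conjTranspose, hP.eq, Matrix.mul_assoc]

/-- number of eigenvalues at least `1 / 4` of `(uᴴ P u) P (uᴴ P u)` -/
noncomputable def ovc {P : Matrix d d ℂ} (u : Matrix d d ℂ) (hP : P.IsHermitian) : ℕ :=
  (Finset.univ.filter fun i => (1 / 4 : ℝ) ≤ (ovM_isHermitian u hP).eigenvalues i).card

end mat

/-- the tuple without its entry `l` -/
def del {k : ℕ} {Y : Type} (z : Fin (k + 1) → Y) (l : Fin (k + 1)) : Fin k → Y :=
  fun i => z (l.succAbove i)

/-- Hermitian average of a tuple in a representation -/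
theorem tup_isHermitian {D k : ℕ} (ρ : Perm (Fin n) →* Matrix (Fin D) (Fin D) ℂ)
    (z : Fin k → Alt n) : (avgRe fun i => ρ (z i : Perm (Fin n))).IsHermitian :=
  avgRe_isHermitian _

/-- the near-invariant space (eigenvalues at least `1 - δ`) has density at most `τ r` on the
representations of exact level `r ∈ (p, p']` -/
def Dn (F : PW (Perm (Fin n))) {k : ℕ} (z : Fin k → Alt n) (p p' : ℕ) (δ : ℝ) (τ : ℕ → ℝ) :
    Prop :=
  ∀ i r, p < r → r ≤ p' → HasFix (F.ρ i) (stab n r) → ¬ HasFix (F.ρ i) (stab n (r - 1)) →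
    (Fintype.card (TopIdx (tup_isHermitian (F.ρ i) z) (1 - δ)) : ℝ) ≤ τ r * F.D i

/-- the overlap of the near-invariant space with its translate by `y` has density at most `τ r`
on the representations of exact level `r ∈ (p, p']` -/
def Ov (F : PW (Perm (Fin n))) {k : ℕ} (z : Fin k → Alt n) (p p' : ℕ) (δ : ℝ) (τ : ℕ → ℝ)
    (y : Alt n) : Prop :=
  ∀ i r, p < r → r ≤ p' → HasFix (F.ρ i) (stab n r) → ¬ HasFix (F.ρ i) (stab n (r - 1)) →
    (ovc (F.ρ i (y : Perm (Fin n))) (topP_isHermitian (tup_isHermitian (F.ρ i) z) (1 - δ)) : ℝ) ≤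
      τ r * F.D i

/-- the weight restricted to the elements with less than `F` fixed points -/
noncomputable def gd (κ : Perm (Fin n) → ℝ) (F : ℕ) : Perm (Fin n) → ℝ :=
  fun g => if fixc g < F then κ g else 0

/-- number of letters with at least `F` fixed points -/
def nbad {T : ℕ} (Z : Fin T → Perm (Fin n)) (F : ℕ) : ℕ :=
  (Finset.univ.filter fun t => F ≤ fixc (Z t)).card

end Pool.Agent.Helper73.LL
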