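import Pool.Agent.Helper6.E.Main

/-! The last step: from the levels up to `exp (-2000) n` to all of them. -/

set_option linter.unusedSectionVars false

namespace Pool.Agent.Helper73.LL

open Matrix Equiv Filter Topology Pool.Agent.Helper15.An Pool.Agent.Helper6.W
  Pool.Agent.Helper6.E
open scoped ComplexOrder

/-- number of letters of the last step -/
noncomputable def hT (n : ℕ) : ℕ := ⌈16 * Real.log (Real.log n)⌉₊

theorem ev_log_lin (C : ℝ) : ∀ᶠ L : ℝ in atTop, C * Real.log L ≤ L := by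
  have h1 := Real.isLittleO_log_id_atTop.def (show (0 : ℝ) < (|C| + 1)⁻¹ by positivity)
  filter_upwards [h1, eventually_ge_atTop 1] with L hL hL1
  have h3 : 0 ≤ Real.log L := Real.log_nonneg hL1
  rw [Real.norm_of_nonneg h3, id, Real.norm_of_nonneg (by linarith),
    ← div_eq_inv_mul, le_div_iff₀ (by positivity)] at hL
  have h4 : C ≤ |C| + 1 := by linarith [le_abs_self C]
  nlinarith

/-- the union bound -/
theorem union_num {n : ℕ} {L : ℝ} {h K : ℕ} (hn : 1000 ≤ n) (hLdef : L = Real.log n)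
    (hL : 1000 ≤ L) (e3 : 8 * L ≤ Real.exp (1 / 8 * L))
    (e4 : 4 * L ^ 2 ≤ Real.exp (5 / 8 * L)) (hhi' : (h : ℝ) ≤ L / 64) (hK : 2 * (K : ℝ) ≤ n) :
    ((n : ℝ) + 1) ^ (2 * (Nat.sqrt n + 1)) * (((2 * h : ℕ) : ℝ) *
      ((2 * (K : ℝ)) ^ (2 * h) * (2 / lamE n))) ≤ 1 / n := by
  have hn0 : (0 : ℝ) < n := by
    have : 0 < n := by omega
    exact_mod_cast this
  have hexp : Real.exp L = n := by rw [hLdef]; exact Real.exp_log hn0
  have hs : ((Nat.sqrt n : ℕ) : ℝ) ≤ Real.exp (L / 2) := by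
    have h1 : ((Nat.sqrt n : ℕ) : ℝ) ^ 2 ≤ Real.exp (L / 2) ^ 2 := by
      have h2 : Nat.sqrt n ^ 2 ≤ n := Nat.sqrt_le' n
      have h3 : Real.exp (L / 2) ^ 2 = n := by
        rw [← Real.exp_nat_mul, ← hexp]; congr 1; push_cast; ring
      rw [h3]
      exact_mod_cast h2
    exact (pow_le_pow_iff_left₀ (Nat.cast_nonneg _) (Real.exp_pos _).le (by norm_num)).1 h1
  have hE2 : 1 ≤ Real.exp (L / 2) := Real.one_le_exp (by linarith)
  have h1 : ((n : ℝ) + 1) ^ (2 * (Nat.sqrt n + 1)) ≤ Real.exp (8 * L * Real.exp (L / 2)) := by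
    have h2 : (n : ℝ) + 1 ≤ Real.exp (2 * L) := by
      have h3 : Real.exp (2 * L) = n * n := by
        rw [← hexp, ← Real.exp_add]; congr 1; ring
      rw [h3]
      have : (2 : ℝ) ≤ n := by
        have : 2 ≤ n := by omega
        exact_mod_cast this
      nlinarith
    calc ((n : ℝ) + 1) ^ (2 * (Nat.sqrt n + 1)) ≤
        Real.exp (2 * L) ^ (2 * (Nat.sqrt n + 1)) := pow_le_pow_left₀ (by positivity) h2 _
      _ = Real.exp (((2 * (Nat.sqrt n + 1) : ℕ) : ℝ) * (2 * L)) := by rw [← Real.exp_nat_mul]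
      _ ≤ _ := by
          apply Real.exp_le_exp.2
          push_cast
          nlinarith
  have h2 : ((2 * h : ℕ) : ℝ) ≤ Real.exp L := by
    push_cast
    have := Real.add_one_le_exp L
    linarith
  have h3 : (2 * (K : ℝ)) ^ (2 * h) ≤ Real.exp (L ^ 2) := by
    have h4 : 2 * (K : ℝ) ≤ Real.exp L := by rw [hexp]; exact hK
    calc (2 * (K : ℝ)) ^ (2 * h) ≤ Real.exp L ^ (2 * h) :=
          pow_le_pow_left₀ (by positivity) h4 _
      _ = Real.exp (((2 * h : ℕ) : ℝ) * L) := by rw [← Real.exp_nat_mul]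
      _ ≤ _ := by
          apply Real.exp_le_exp.2
          push_cast
          nlinarith
  have h5 : 2 / lamE n ≤ Real.exp (1 - Real.exp (3 / 4 * L)) := by
    unfold lamE
    rw [← hLdef, Real.exp_sub]
    have : (2 : ℝ) ≤ Real.exp 1 := by linarith [Real.add_one_le_exp 1]
    gcongr
  have h6 : 0 ≤ 2 / lamE n := by unfold lamE; positivity
  calc ((n : ℝ) + 1) ^ (2 * (Nat.sqrt n + 1)) * (((2 * h : ℕ) : ℝ) *
        ((2 * (K : ℝ)) ^ (2 * h) * (2 / lamE n))) ≤
      Real.exp (8 * L * Real.exp (L / 2)) * (Real.exp L * (Real.exp (L ^ 2) *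
        Real.exp (1 - Real.exp (3 / 4 * L)))) := by gcongr
    _ = Real.exp (8 * L * Real.exp (L / 2) + (L + (L ^ 2 + (1 - Real.exp (3 / 4 * L))))) := by
        rw [Real.exp_add, Real.exp_add, Real.exp_add]
    _ ≤ Real.exp (-L) := by
        apply Real.exp_le_exp.2
        have h7 : 8 * L * Real.exp (L / 2) ≤ Real.exp (5 / 8 * L) := by
          calc 8 * L * Real.exp (L / 2) ≤ Real.exp (1 / 8 * L) * Real.exp (L / 2) := by gcongr
            _ = Real.exp (5 / 8 * L) := by rw [← Real.exp_add]; congr 1; ring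
        have h8 : 2 * Real.exp (5 / 8 * L) ≤ Real.exp (3 / 4 * L) := by
          calc 2 * Real.exp (5 / 8 * L) ≤ Real.exp (1 / 8 * L) * Real.exp (5 / 8 * L) := by
                gcongr
                linarith
            _ = Real.exp (3 / 4 * L) := by rw [← Real.exp_add]; congr 1; ring
        nlinarith
    _ = 1 / n := by rw [Real.exp_neg, hexp]; ring

/-- from the levels up to `exp (-2000) n` to all levels -/
theorem top_good : ∀ᶠ n : ℕ in atTop, ∀ (F : PW (Perm (Fin n))) (K p : ℕ) (ε : ℝ), 0 < ε →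
    ε ≤ 1 → 32 * hT n ≤ K → 2 * (K : ℝ) ≤ n → Real.exp (Real.log n - 2000) ≤ 2 * p →
    (p : ℝ) ≤ Real.exp (Real.log n - 1500) → ∀ x : Fin K → Alt n, Good F (tupW x) p ε →
      (Nat.card {y : Fin K → Alt n // ¬ Good F (mixW (tupW x) (tupW y)) n (ε / 8000)} : ℝ) ≤
        (Fintype.card (Alt n) : ℝ) ^ K * (1 / n) := by
  have t := tendsto_log_nat
  have e3 : ∀ᶠ n : ℕ in atTop, 8 * Real.log n ≤ Real.exp (1 / 8 * Real.log n) := by
    filter_upwards [t.eventually (ev_poly (show (0 : ℝ) < 1 / 8 by norm_num) 8 1)] with n hn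
    simpa using hn
  have e4 : ∀ᶠ n : ℕ in atTop, 4 * Real.log n ^ 2 ≤ Real.exp (5 / 8 * Real.log n) :=
    t.eventually (ev_poly (show (0 : ℝ) < 5 / 8 by norm_num) 4 2)
  have e5 : ∀ᶠ n : ℕ in atTop, 1600 * Real.exp 2000 * Real.log n ^ 2 ≤
      Real.exp (1 * Real.log n) :=
    t.eventually (ev_poly (show (0 : ℝ) < 1 by norm_num) (1600 * Real.exp 2000) 2)
  filter_upwards [e3, e4, e5, t.eventually (ev_log_lin 2048),
    t.eventually_ge_atTop (204800 * Real.exp 2000 + 40000), eventually_ge_atTop 1000,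
    t.eventually (ev_exp (show (0 : ℝ) < 15 / 128 by norm_num) 32)]
    with n e3 e4 e5 e6 hL hn e7 F K p ε hε0 hε1 hK1 hK2 hp1 hp2 x hx
  set L := Real.log n with hLdef
  have hn0 : (0 : ℝ) < n := by
    have : 0 < n := by omega
    exact_mod_cast this
  have hexp : Real.exp L = n := Real.exp_log hn0
  have hE0 : 0 < Real.exp 2000 := Real.exp_pos _
  have hL1 : 40000 ≤ L := by linarith
  have hL0 : 0 < L := by linarith
  set l2 := Real.log L with hl2
  have hl2pos : 1 ≤ l2 := by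
    rw [hl2, Real.le_log_iff_exp_le hL0]
    have := Real.exp_one_lt_d9
    linarith
  have hexpl2 : Real.exp l2 = L := Real.exp_log hL0
  set h := hT n with hh
  have hlo : 16 * l2 ≤ h := Nat.le_ceil _
  have hhi : (h : ℝ) < 16 * l2 + 1 := Nat.ceil_lt_add_one (by linarith)
  have hpos : 0 < h := by
    have : (0 : ℝ) < h := by linarith
    exact_mod_cast this
  have hhi' : (h : ℝ) ≤ L / 64 := by linarith
  -- the level
  rw [one_mul] at e5
  have hEL : Real.exp (L - 2000) = Real.exp L / Real.exp 2000 := Real.exp_sub _ _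
  have hEL2 : 1600 * L ^ 2 ≤ Real.exp (L - 2000) := by
    rw [hEL, le_div_iff₀ hE0]
    linarith
  have hELpos : 0 < Real.exp (L - 2000) := Real.exp_pos _
  set r : ℕ := ⌊(p : ℝ) / (400 * L ^ 2)⌋₊ with hr
  have rhi : (r : ℝ) ≤ (p : ℝ) / (400 * L ^ 2) := Nat.floor_le (by positivity)
  have rlo : (p : ℝ) / (400 * L ^ 2) < r + 1 := Nat.lt_floor_add_one _
  have rlo2 : Real.exp (L - 2000) / (1600 * L ^ 2) ≤ r := by
    have h2 : Real.exp (L - 2000) / (800 * L ^ 2) ≤ (p : ℝ) / (400 * L ^ 2) := by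
      calc Real.exp (L - 2000) / (800 * L ^ 2) = Real.exp (L - 2000) / 2 / (400 * L ^ 2) := by
            field_simp; ring
        _ ≤ _ := by gcongr; linarith
    have h3 : 1 ≤ Real.exp (L - 2000) / (1600 * L ^ 2) := by
      rw [one_le_div (by positivity)]; exact hEL2
    have h4 : Real.exp (L - 2000) / (800 * L ^ 2) =
        2 * (Real.exp (L - 2000) / (1600 * L ^ 2)) := by field_simp; ring
    linarith
  have hr1 : 1 ≤ r := by
    have h1 : (0 : ℝ) < r := lt_of_lt_of_le (by positivity) rlo2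
    exact_mod_cast h1
  have hpn : 16 * (p + 1) ≤ n := by
    have h1 : Real.exp (L - 1500) * Real.exp 1500 = n := by
      rw [← Real.exp_add, ← hexp]; congr 1; ring
    have h2 : (1501 : ℝ) ≤ Real.exp 1500 := by
      have := Real.add_one_le_exp (1500 : ℝ)
      linarith
    have h3 : (1 : ℝ) ≤ Real.exp (L - 1500) := Real.one_le_exp (by linarith)
    have h4 : 16 * ((p : ℝ) + 1) ≤ n := by nlinarith
    exact_mod_cast h4
  -- the exponent
  set δ : ℝ := (2000 + Real.log (3200 * L)) / (2 * L) with hδ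
  have hδL : 2 * δ * L = 2000 + Real.log (3200 * L) := by
    rw [hδ]; field_simp
  have hexpδ : Real.exp (2 * δ * L) = Real.exp 2000 * (3200 * L) := by
    rw [hδL, Real.exp_add, Real.exp_log (by positivity)]
  have hδ8 : 2 * δ ≤ 1 / 8 := by
    have h1 : Real.log (3200 * L) = Real.log 3200 + l2 := Real.log_mul (by norm_num) hL0.ne'
    have h2 : Real.log 3200 ≤ 3200 := (Real.log_le_sub_one_of_pos (by norm_num)).trans (by norm_num)
    have h2' : Real.log 3200 ≤ 10 := by
      rw [Real.log_le_iff_le_exp (by norm_num)]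
      have h3 := Real.exp_one_gt_d9
      have h4 : Real.exp 10 = Real.exp 1 ^ 10 := by rw [← Real.exp_nat_mul]; norm_num
      rw [h4]
      have h5 : (2.7 : ℝ) ^ 10 ≤ Real.exp 1 ^ 10 :=
        pow_le_pow_left₀ (by norm_num) (by linarith) 10
      norm_num at h5
      linarith
    have h3 : 2 * δ * L ≤ 1 / 8 * L := by
      rw [hδL, h1]
      linarith
    exact le_of_mul_le_mul_right h3 hL0
  have hLamlo : Real.exp ((1 - 2 * δ) * L) ≤ r * L / 2 := by
    have h1 : Real.exp ((1 - 2 * δ) * L) = Real.exp L / Real.exp (2 * δ * L) := by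
      rw [← Real.exp_sub]; congr 1; ring
    rw [h1, hexpδ]
    have h2 : Real.exp L / (Real.exp 2000 * (3200 * L)) =
        Real.exp (L - 2000) / (1600 * L ^ 2) * L / 2 := by
      rw [hEL]; field_simp; ring
    rw [h2]
    gcongr
  have hnum := sqrt_num (δ := δ) (h := h) (Lam := r * L / 2) (lam := lamE n) (N := n) hpos
    (by linarith) hexp.symm rfl hδ8 hLamlo hhi' (by
      have h1 : Real.exp (1 / 4) ≤ 2 := exp_quarter_le.trans (by norm_num)
      have h2 : L ^ 4 ≤ Real.exp (((h : ℝ) + 1) / 4) := by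
        have h3 : L ^ 4 = Real.exp (4 * l2) := by
          rw [← hexpl2, ← Real.exp_nat_mul]; norm_num
        rw [h3]
        apply Real.exp_le_exp.2
        linarith
      rw [hexpδ]
      have h3 : 204800 * Real.exp 2000 ≤ L := by linarith
      have h4 : 204800 * Real.exp 2000 * L ^ 2 ≤ L ^ 4 := by
        calc 204800 * Real.exp 2000 * L ^ 2 ≤ L * L ^ 2 := by gcongr
          _ ≤ L * L ^ 2 * L := le_mul_of_one_le_right (by positivity) (by linarith)
          _ = L ^ 4 := by ring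
      calc 64 * L * (Real.exp 2000 * (3200 * L)) * Real.exp (1 / 4) ≤
          64 * L * (Real.exp 2000 * (3200 * L)) * 2 := by gcongr
        _ = 2 * (204800 * Real.exp 2000 * L ^ 2) := by ring
        _ ≤ 2 * Real.exp (((h : ℝ) + 1) / 4) := by linarith) e7
  have h3 := mix_good F (h := h) (p := p) (r := r) hpos hK1 x ε hε0 hε1 hx (by linarith) hr1
    (by
      rw [le_div_iff₀ (by positivity)] at rhi
      linarith) hpn hn (lamE n) (Real.one_le_exp (Real.exp_pos _).le) hnum
  refine h3.trans ?_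
  have h4 : (F.c : ℝ) ≤ ((n : ℝ) + 1) ^ (2 * (Nat.sqrt n + 1)) := by
    exact_mod_cast irr_count F
  have h5 := union_num (h := h) (K := K) hn hLdef (by linarith) e3 e4 hhi' hK2
  have hlam : 0 < lamE n := Real.exp_pos _
  calc (F.c : ℝ) * (((2 * h : ℕ) : ℝ) * ((2 * (K : ℝ)) ^ (2 * h) *
        (2 / lamE n * (Fintype.card (Alt n) : ℝ) ^ K))) =
      (F.c : ℝ) * (((2 * h : ℕ) : ℝ) * ((2 * (K : ℝ)) ^ (2 * h) *
        (2 / lamE n))) * (Fintype.card (Alt n) : ℝ) ^ K := by ring
    _ ≤ ((n : ℝ) + 1) ^ (2 * (Nat.sqrt n + 1)) * (((2 * h : ℕ) : ℝ) *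
        ((2 * (K : ℝ)) ^ (2 * h) * (2 / lamE n))) *
          (Fintype.card (Alt n) : ℝ) ^ K := by gcongr
    _ ≤ 1 / n * (Fintype.card (Alt n) : ℝ) ^ K := by gcongr
    _ = _ := by ring

end Pool.Agent.Helper73.LL
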