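import Pool.Agent.Helper73.LL.Climb
import Pool.Agent.Helper73.LL.Top

/-! The uniform gap for a power of `log log n` random elements. -/

set_option linter.unusedSectionVars false

namespace Pool.Agent.Helper73.LL

open Matrix Equiv Filter Topology Pool.Agent.Helper15.An Pool.Agent.Helper6.W
  Pool.Agent.Helper6.FixK Pool.Agent.Helper6.E
open scoped ComplexOrder

theorem el_zero (n : ℕ) : el n 0 = Real.log n / 4000 := by simp [el]

/-- the number of levels -/
theorem exists_levels {n : ℕ} (hL : 10 ^ 7 ≤ Real.log n) :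
    ∃ I : ℕ, (I : ℝ) ≤ 4 * Real.log (Real.log n) ∧ (∀ j, j < I → 1000 ≤ el n j) ∧
      el n I ≤ 2000 ∧ 1500 ≤ el n I := by
  set L := Real.log n with hLdef
  set l2 := Real.log L with hl2
  have hL0 : 0 < L := by linarith
  have hl2pos : 0 ≤ l2 := Real.log_nonneg (by linarith)
  have hex : ∃ i, el n i ≤ 2000 := by
    refine ⟨⌊4 * l2⌋₊, ?_⟩
    set i := ⌊4 * l2⌋₊ with hi
    have h1 : 4 * l2 < i + 1 := Nat.lt_floor_add_one _
    have h2 : ((3 : ℝ) / 4) ^ i ≤ Real.exp (-(1 / 4)) ^ i := by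
      apply pow_le_pow_left₀ (by norm_num)
      have := Real.add_one_le_exp (-(1 / 4 : ℝ))
      linarith
    have h3 : Real.exp (-(1 / 4)) ^ i = Real.exp (-(i / 4)) := by
      rw [← Real.exp_nat_mul]; congr 1; ring
    have h4 : Real.exp (-((i : ℝ) / 4)) ≤ Real.exp (1 - l2) := by
      apply Real.exp_le_exp.2
      linarith
    have h5 : Real.exp (1 - l2) = Real.exp 1 / L := by
      rw [Real.exp_sub, hl2, Real.exp_log hL0]
    have h6 : ((3 : ℝ) / 4) ^ i ≤ Real.exp 1 / L := by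
      rw [← h5]; exact (h2.trans_eq h3).trans h4
    unfold el
    rw [← hLdef]
    calc ((3 : ℝ) / 4) ^ i * (L / 4000) ≤ Real.exp 1 / L * (L / 4000) := by gcongr
      _ = Real.exp 1 / 4000 := by field_simp
      _ ≤ 2000 := by
        have := Real.exp_one_lt_d9
        linarith
  classical
  refine ⟨Nat.find hex, ?_, fun j hj => ?_, Nat.find_spec hex, ?_⟩
  · have h1 : Nat.find hex ≤ ⌊4 * l2⌋₊ := by
      apply Nat.find_min'
      set i := ⌊4 * l2⌋₊ with hi
      have h1 : 4 * l2 < i + 1 := Nat.lt_floor_add_one _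
      have h2 : ((3 : ℝ) / 4) ^ i ≤ Real.exp (-(1 / 4)) ^ i := by
        apply pow_le_pow_left₀ (by norm_num)
        have := Real.add_one_le_exp (-(1 / 4 : ℝ))
        linarith
      have h3 : Real.exp (-(1 / 4)) ^ i = Real.exp (-(i / 4)) := by
        rw [← Real.exp_nat_mul]; congr 1; ring
      have h4 : Real.exp (-((i : ℝ) / 4)) ≤ Real.exp (1 - l2) := by
        apply Real.exp_le_exp.2
        linarith
      have h5 : Real.exp (1 - l2) = Real.exp 1 / L := by
        rw [Real.exp_sub, hl2, Real.exp_log hL0]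
      have h6 : ((3 : ℝ) / 4) ^ i ≤ Real.exp 1 / L := by
        rw [← h5]; exact (h2.trans_eq h3).trans h4
      unfold el
      rw [← hLdef]
      calc ((3 : ℝ) / 4) ^ i * (L / 4000) ≤ Real.exp 1 / L * (L / 4000) := by gcongr
        _ = Real.exp 1 / 4000 := by field_simp
        _ ≤ 2000 := by
          have := Real.exp_one_lt_d9
          linarith
    calc ((Nat.find hex : ℕ) : ℝ) ≤ ((⌊4 * l2⌋₊ : ℕ) : ℝ) := by exact_mod_cast h1
      _ ≤ 4 * l2 := Nat.floor_le (by positivity)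
  · have := Nat.find_min hex hj
    rw [not_le] at this
    linarith
  · have h0 : Nat.find hex ≠ 0 := by
      intro h
      have h1 := Nat.find_spec hex
      rw [h, el_zero, ← hLdef] at h1
      linarith
    obtain ⟨m, hm⟩ := Nat.exists_eq_succ_of_ne_zero h0
    have h1 : ¬ el n m ≤ 2000 := Nat.find_min hex (by omega)
    rw [not_le] at h1
    rw [hm]
    have h2 : el n (m + 1) = 3 / 4 * el n m := by unfold el; rw [pow_succ]; ring
    rw [Nat.succ_eq_add_one, h2]
    linarith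

/-- at least `C (log log n) ^ 3` random elements have a uniform gap on all nontrivial
representations -/
theorem loglog_good (P : Packs) : ∃ c : ℝ, 0 < c ∧ ∃ C : ℝ, 0 < C ∧ ∃ C' : ℝ, 0 ≤ C' ∧
    ∀ᶠ n : ℕ in atTop, ∀ F : PW (Perm (Fin n)), ∀ k : ℕ,
      C * Real.log (Real.log n) ^ 3 ≤ k →
      (Nat.card {z : Fin k → Alt n // ¬ Good F (tupW z) n c} : ℝ) ≤
        (Fintype.card (Alt n) : ℝ) ^ k * (C' * Real.exp (-(Real.log n / 2))) := by
  obtain ⟨ε, hε, hε1, K₀, hK₀⟩ := main_good (α := 1 - 1 / 4000) (by norm_num)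
  set k₁ := max K₀ 1 with hk₁
  have hk₁pos : 0 < k₁ := lt_of_lt_of_le one_pos (le_max_right _ _)
  obtain ⟨C₁, hC₁, hev⟩ := hK₀ k₁ (le_max_left _ _)
  set e0 : ℝ := min (ε / 4) (1 / 200) with he0def
  have he0 : 0 < e0 := lt_min (by linarith) (by norm_num)
  have he1 : e0 ≤ 1 / 200 := min_le_right _ _
  have he2 : e0 ≤ ε / 4 := min_le_left _ _
  set M : ℝ := 4 * 10 ^ 8 / e0 + 96021 with hM
  have hM0 : 0 < M := by positivity
  refine ⟨e0 / 2 / 8000 / 4, by positivity, 2 * M, by positivity, 2 * (2 * C₁ + 2), by positivity,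
    ?_⟩
  have t := tendsto_log_nat
  filter_upwards [hev, climb P he0 he1, top_good, t.eventually (ev_log_pow (400000 * M) 6),
    t.eventually (ev_log_pow (2 * M) 3), t.eventually_ge_atTop (10 ^ 7), eventually_ge_atTop 1,
    (Real.tendsto_log_atTop.comp t).eventually_ge_atTop ((k₁ : ℝ) + 1)]
    with n hbase hclimb htop hp6 hp3 hL hn1 hlk F k hk
  simp only [Function.comp_apply] at hlk
  set L := Real.log n with hLdef
  set l2 := Real.log L with hl2
  have hn0 : (0 : ℝ) < n := by exact_mod_cast hn1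
  have hnr : (1 : ℝ) ≤ n := by exact_mod_cast hn1
  have hexp : Real.exp L = n := Real.exp_log hn0
  have hL0 : 0 < L := by linarith
  have hk₁r : (1 : ℝ) ≤ k₁ := by exact_mod_cast hk₁pos
  have hl21 : 1 ≤ l2 := by linarith
  have hl20 : 0 < l2 := by linarith
  have hL5 : L ^ (1 / 5 : ℝ) ≤ L := by
    calc L ^ (1 / 5 : ℝ) ≤ L ^ (1 : ℝ) :=
          Real.rpow_le_rpow_of_exponent_le (by linarith) (by norm_num)
      _ = L := Real.rpow_one L
  have hLn : L ≤ n := by
    rw [← hexp]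
    have := Real.add_one_le_exp L
    linarith
  have h23 : 1 ≤ l2 ^ 3 := one_le_pow₀ hl21
  have h2le3 : l2 ≤ l2 ^ 3 := le_self_pow₀ hl21 (by norm_num)
  obtain ⟨I, hI, hel, helI1, helI2⟩ := exists_levels hL
  -- sizes
  have hks1 : 4 * 10 ^ 8 * l2 ^ 3 / e0 ≤ ks e0 n := Nat.le_ceil _
  have hks2 : (ks e0 n : ℝ) < 4 * 10 ^ 8 * l2 ^ 3 / e0 + 1 := Nat.ceil_lt_add_one (by positivity)
  have hSS : (SS n : ℝ) < 4800 * l2 + 1 := Nat.ceil_lt_add_one (by positivity)
  have hhN : (hN n : ℝ) < 3 * l2 + 1 := Nat.ceil_lt_add_one (by positivity)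
  have hDD : (DD n : ℝ) ≤ 24005 * l2 ^ 2 := by
    have h1 : (DD n : ℝ) = SS n * (hN n + 1) := by unfold DD; push_cast; ring
    rw [h1]
    calc (SS n : ℝ) * (hN n + 1) ≤ (4801 * l2) * (5 * l2) := by
          gcongr
          · linarith
          · linarith
      _ = 24005 * l2 ^ 2 := by ring
  have hID : (I : ℝ) * DD n ≤ 96020 * l2 ^ 3 := by
    calc (I : ℝ) * DD n ≤ (4 * l2) * (24005 * l2 ^ 2) := by gcongr
      _ = 96020 * l2 ^ 3 := by ring
  set K : ℕ := ks e0 n + I * DD n with hK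
  have hKr : (K : ℝ) = ks e0 n + I * DD n := by rw [hK]; push_cast; ring
  have hKle : (K : ℝ) ≤ M * l2 ^ 3 := by
    rw [hKr, hM]
    have : (4 * 10 ^ 8 / e0 + 96021) * l2 ^ 3 = 4 * 10 ^ 8 * l2 ^ 3 / e0 + 96020 * l2 ^ 3 +
        l2 ^ 3 := by ring
    rw [this]
    linarith
  have hksbig : 4 * 10 ^ 8 * l2 ≤ ks e0 n := by
    refine le_trans ?_ hks1
    rw [le_div_iff₀ he0]
    calc 4 * 10 ^ 8 * l2 * e0 ≤ 4 * 10 ^ 8 * l2 ^ 3 * 1 := by
          gcongr
          linarith
      _ = 4 * 10 ^ 8 * l2 ^ 3 := by ring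
  have hKbig : 4 * 10 ^ 8 * l2 ≤ K := by
    rw [hKr]
    have : (0 : ℝ) ≤ I * DD n := by positivity
    linarith
  have hk1ks : k₁ ≤ ks e0 n := by
    have : (k₁ : ℝ) ≤ ks e0 n := by
      refine le_trans ?_ hksbig
      nlinarith
    exact_mod_cast this
  have hKpos : 0 < K := by
    have : (0 : ℝ) < K := by nlinarith
    exact_mod_cast this
  -- the start
  have h1 := block_markov F k₁ (ks e0 n) hk₁pos hk1ks (lv n (1 - 1 / 4000)) ε (C₁ / n) hε.le
    (hbase F)
  have h2 : Fl (fun z : Fin (ks e0 n) → Alt n =>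
      Good F (tupW z) ⌊Real.exp (L - el n 0)⌋₊ e0) ((2 * C₁ + 1) / n) := by
    have h3 : lv n (1 - 1 / 4000) = ⌊Real.exp (L - el n 0)⌋₊ := by
      unfold lv
      rw [el_zero]
      congr 2
      ring
    have h4 : Fl (fun z : Fin (ks e0 n) → Alt n =>
        Good F (tupW z) (lv n (1 - 1 / 4000)) (ε / 4)) (2 * (C₁ / n)) := h1
    refine h4.mono (fun z hz => ?_) ?_
    · rw [← h3]
      exact good_weaken hz he2
    · rw [← mul_div_assoc]
      gcongr
      linarith
  have hQ : ((n : ℝ) ^ 2)⁻¹ ≤ (2 * C₁ + 1) / n := by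
    rw [inv_eq_one_div, div_le_div_iff₀ (by positivity) hn0]
    nlinarith
  have h3 := hclimb F K ((2 * C₁ + 1) / n) I hI hel (by rw [hKr]) hQ h2 K rfl
  set p := ⌊Real.exp (L - el n I)⌋₊ with hp
  -- failure probability
  have hfail : (2 * (K : ℝ)) ^ (I * DD n) * ((2 * C₁ + 1) / n) ≤
      (2 * C₁ + 1) * Real.exp (-(L / 2)) := by
    have h4 : (2 * (K : ℝ)) ^ (I * DD n) ≤ Real.exp (L / 2) := by
      calc (2 * (K : ℝ)) ^ (I * DD n) ≤ Real.exp (2 * K) ^ (I * DD n) := by
            apply pow_le_pow_left₀ (by positivity)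
            have := Real.add_one_le_exp (2 * (K : ℝ))
            linarith
        _ = Real.exp (((I * DD n : ℕ) : ℝ) * (2 * K)) := by rw [← Real.exp_nat_mul]
        _ ≤ Real.exp (L / 2) := by
          apply Real.exp_le_exp.2
          push_cast
          calc (I : ℝ) * DD n * (2 * K) ≤ 96020 * l2 ^ 3 * (2 * (M * l2 ^ 3)) := by gcongr
            _ = 192040 * M * l2 ^ 6 := by ring
            _ ≤ 400000 * M * l2 ^ 6 / 2 := by
              have : 0 < M * l2 ^ 6 := by positivity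
              linarith
            _ ≤ L / 2 := by linarith
    calc (2 * (K : ℝ)) ^ (I * DD n) * ((2 * C₁ + 1) / n) ≤
        Real.exp (L / 2) * ((2 * C₁ + 1) / n) := by gcongr
      _ = (2 * C₁ + 1) * (Real.exp (L / 2) / Real.exp L) := by rw [hexp]; ring
      _ = (2 * C₁ + 1) * Real.exp (-(L / 2)) := by
        rw [← Real.exp_sub]
        congr 2
        ring
  have h4 : (Nat.card {x : Fin K → Alt n // ¬ Good F (tupW x) p (e0 / 2)} : ℝ) ≤
      (Fintype.card (Alt n) : ℝ) ^ K * ((2 * C₁ + 1) * Real.exp (-(L / 2))) := by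
    refine (show (Nat.card {x : Fin K → Alt n // ¬ Good F (tupW x) p (e0 / 2)} : ℝ) ≤
      (Fintype.card (Alt n) : ℝ) ^ K * ((2 * (K : ℝ)) ^ (I * DD n) * ((2 * C₁ + 1) / n)) from
        h3).trans ?_
    exact mul_le_mul_of_nonneg_left hfail (by positivity)
  -- the top
  have hTlt : (hT n : ℝ) < 16 * l2 + 1 := Nat.ceil_lt_add_one (by positivity)
  have h32 : 32 * hT n ≤ K := by
    have : (32 : ℝ) * hT n ≤ K := by
      refine le_trans ?_ hKbig
      linarith
    exact_mod_cast this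
  have h2K : 2 * (K : ℝ) ≤ n := by
    have h5 : 2 * (K : ℝ) ≤ 2 * M * l2 ^ 3 := by linarith
    linarith
  have hp1 : Real.exp (L - 2000) ≤ 2 * p := by
    have h5 : Real.exp (L - 2000) ≤ Real.exp (L - el n I) := by
      apply Real.exp_le_exp.2
      linarith
    have h6 : Real.exp (L - el n I) < (p : ℝ) + 1 := Nat.lt_floor_add_one _
    have h7 : 2 ≤ Real.exp (L - el n I) := by
      have := Real.add_one_le_exp (L - el n I)
      linarith
    linarith
  have hp2 : (p : ℝ) ≤ Real.exp (L - 1500) := by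
    have h5 : (p : ℝ) ≤ Real.exp (L - el n I) := Nat.floor_le (Real.exp_pos _).le
    refine h5.trans (Real.exp_le_exp.2 (by linarith))
  have h5 := two_blocks F hKpos (e0 / 2) (e0 / 2 / 8000) ((2 * C₁ + 1) * Real.exp (-(L / 2)))
    (1 / n) (by positivity) h4
    (htop F K p (e0 / 2) (by positivity) (by linarith) h32 h2K hp1 hp2)
  have hKK : K + K ≤ k := by
    have h6 : ((K + K : ℕ) : ℝ) ≤ k := by
      push_cast
      linarith
    exact_mod_cast h6
  have h6 := block_markov F (K + K) k (by omega) hKK n (e0 / 2 / 8000)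
    ((2 * C₁ + 1) * Real.exp (-(L / 2)) + 1 / n) (by positivity) h5
  refine h6.trans (mul_le_mul_of_nonneg_left ?_ (by positivity))
  have h7 : 1 / (n : ℝ) ≤ Real.exp (-(L / 2)) := by
    rw [← hexp, one_div, ← Real.exp_neg]
    apply Real.exp_le_exp.2
    linarith
  nlinarith [Real.exp_pos (-(L / 2))]

end Pool.Agent.Helper73.LL
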