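import Pool.Agent.Helper73.LL.Sweep

/-! All sweeps at one level. -/

set_option linter.unusedSectionVars false

namespace Pool.Agent.Helper73.LL

open Matrix Equiv Filter Topology Pool.Agent.Helper15.An Pool.Agent.Helper6.W
  Pool.Agent.Helper6.FixK
open scoped ComplexOrder

variable {n : ℕ}

theorem good_weaken {F : PW (Perm (Fin n))} {μ : Perm (Fin n) → ℝ} {p : ℕ} {ε ε' : ℝ}
    (h : Good F μ p ε) (hε : ε' ≤ ε) : Good F μ p ε' := by
  intro i hi hf
  have h1 := h i hi hf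
  have h2 : ((ε - ε') • (1 : Matrix (Fin (F.D i)) (Fin (F.D i)) ℂ)).PosSemidef :=
    Matrix.PosSemidef.one.smul (by linarith)
  convert h1.add h2 using 1
  module

/-- all packets -/
structure Packs : Prop where
  ovr : S_OVER
  dbl : S_DBL
  evt : S_EVT
  law1 : S_LAW1
  law2 : S_LAW2
  trup : S_TRUP
  trlo : S_TRLO
  nc : S_NC
  nside : S_NSIDE
  na : S_NA
  nb : S_NB
  ncc : S_NCC
  nd : S_ND

/-- gap after `s` sweeps -/
noncomputable def xs (θ : ℝ) (s : ℕ) : ℝ := min ((s : ℝ) / (s + 48)) (1 - θ)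

theorem xs_step (θ : ℝ) (s : ℕ) :
    xs θ (s + 1) ≤ xs θ s + (1 - xs θ s) ^ 2 / 48 := by
  unfold xs
  have hs0 : (0 : ℝ) ≤ s := Nat.cast_nonneg _
  rcases le_total ((s : ℝ) / (s + 48)) (1 - θ) with h | h
  · rw [min_eq_left h]
    refine (min_le_left _ _).trans ?_
    have h1 : (s : ℝ) / (s + 48) + (1 - (s : ℝ) / (s + 48)) ^ 2 / 48 -
        ((s + 1 : ℕ) : ℝ) / ((s + 1 : ℕ) + 48) = 48 / ((s + 48) ^ 2 * (s + 49)) := by
      push_cast
      field_simp
      ring
    have h2 : 0 ≤ 48 / (((s : ℝ) + 48) ^ 2 * (s + 49)) := by positivity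
    linarith
  · rw [min_eq_right h]
    refine (min_le_right _ _).trans ?_
    have : 0 ≤ (1 - (1 - θ)) ^ 2 / 48 := by positivity
    linarith

theorem xs_nonneg {θ : ℝ} (hθ : θ ≤ 1) (s : ℕ) : 0 ≤ xs θ s := by
  unfold xs
  have hs0 : (0 : ℝ) ≤ s := Nat.cast_nonneg _
  exact le_min (by positivity) (by linarith)

theorem xs_final {θ : ℝ} {S : ℕ} (h : 48 ≤ θ * S) (hθ : 0 < θ) : xs θ S = 1 - θ := by
  unfold xs
  apply min_eq_right
  have hS0 : (0 : ℝ) ≤ S := Nat.cast_nonneg _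
  rw [le_div_iff₀ (by linarith)]
  nlinarith

/-- all sweeps of one level -/
theorem level (P : Packs) {ell e θ : ℝ} {h k₀ : ℕ} (c : SC n ell e θ h k₀)
    (F : PW (Perm (Fin n))) {k S : ℕ} (hk : k₀ ≤ k) {K Q : ℝ}
    (hK : (k : ℝ) + S * (h + 1) ≤ K) (hS : 48 ≤ θ * S) (hQ : ((n : ℝ) ^ 2)⁻¹ ≤ Q)
    (hs : Fl (fun z : Fin k → Alt n => Good F (tupW z) ⌊Real.exp (Real.log n - ell)⌋₊ e) Q)
    {k' : ℕ} (hk' : k' = k + S * (h + 1)) :
    Fl (fun z : Fin k' → Alt n =>
      Good F (tupW z) ⌊Real.exp (Real.log n - 3 / 4 * ell)⌋₊ ((1 - θ) * e))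
      ((2 * K) ^ (S * (h + 1)) * Q) := by
  have hn3 := c.n3
  have hθ0 := c.hθ0
  have hθ1 := c.hθ1
  have he0 := c.he
  have hn0 : (0 : ℝ) < n := by
    have : 0 < n := by omega
    exact_mod_cast this
  have hQ0 : 0 < Q := by
    have : 0 < ((n : ℝ) ^ 2)⁻¹ := by positivity
    linarith
  have hk0 : 0 < k := lt_of_lt_of_le c.hk₀ hk
  have hK1 : 1 ≤ K := by
    have h1 : (1 : ℝ) ≤ k := by exact_mod_cast hk0
    have h2 : (0 : ℝ) ≤ S * (h + 1) := by positivity
    linarith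
  have key : ∀ s, s ≤ S → ∀ k'', k'' = k + s * (h + 1) → Fl (fun z : Fin k'' → Alt n =>
      Good F (tupW z) ⌊Real.exp (Real.log n - ell)⌋₊ e ∧
      Good F (tupW z) ⌊Real.exp (Real.log n - 3 / 4 * ell)⌋₊ (xs θ s * e))
      ((2 * K) ^ (s * (h + 1)) * Q) := by
    intro s
    induction s with
    | zero =>
      intro _ k'' hk''
      have : k'' = k := by omega
      subst this
      refine hs.mono (fun z hz => ⟨hz, ?_⟩) (by simp)
      intro i hi hf
      have h1 := one_sub_wop (F.ρ i) (F.irr i).unit (tupW_isSP hk0 z)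
      have h2 : xs θ 0 * e ≤ 0 := by
        unfold xs
        have : min (((0 : ℕ) : ℝ) / ((0 : ℕ) + 48)) (1 - θ) ≤ 0 :=
          (min_le_left _ _).trans (by norm_num)
        nlinarith
      have h3 : ((-(xs θ 0 * e)) • (1 : Matrix (Fin (F.D i)) (Fin (F.D i)) ℂ)).PosSemidef :=
        Matrix.PosSemidef.one.smul (by linarith)
      convert h1.add h3 using 1
      module
    | succ s ih =>
      intro hs' k'' hk''
      have h1 := ih (by omega) (k + s * (h + 1)) rfl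
      have hge : ((n : ℝ) ^ 2)⁻¹ ≤ (2 * K) ^ (s * (h + 1)) * Q := by
        have : (1 : ℝ) ≤ (2 * K) ^ (s * (h + 1)) := one_le_pow₀ (by linarith)
        nlinarith
      have hKs : ((k + s * (h + 1) : ℕ) : ℝ) + 1 + h ≤ K := by
        have h2 : ((s + 1 : ℕ) : ℝ) * (h + 1) ≤ S * (h + 1) := by
          have : ((s + 1 : ℕ) : ℝ) ≤ S := by exact_mod_cast hs'
          gcongr
        push_cast at h2 ⊢
        linarith
      have h2 := sweep P.ovr P.dbl P.evt P.law1 P.law2 P.trup P.trlo P.nside P.na P.nb P.ncc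
        P.nd c F (xs_nonneg hθ1 s) (by unfold xs; exact min_le_right _ _) (k := k + s * (h + 1))
        (by omega) hKs hge h1
      have h3 : k'' = k + s * (h + 1) + 1 + h := by rw [hk'']; ring
      subst h3
      refine h2.mono (fun z hz => ⟨hz.1, good_weaken hz.2 ?_⟩) (le_of_eq ?_)
      · exact mul_le_mul_of_nonneg_right (xs_step θ s) he0.le
      · rw [← mul_assoc, ← pow_add]
        congr 2
        ring
  have h1 := key S le_rfl k' hk'
  rw [xs_final hS hθ0] at h1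
  exact h1.mono (fun z hz => hz.2) le_rfl

end Pool.Agent.Helper73.LL
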