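import Pool.Agent.Helper73.LL.Goals

/-! Leave-one-out: counting and the deterministic steps. -/

set_option linter.unusedSectionVars false

namespace Pool.Agent.Helper73.LL

open Matrix Equiv Filter Topology Pool.Agent.Helper15.An Pool.Agent.Helper6.W
open scoped ComplexOrder

variable {n : ℕ}

/-- counting for one position -/
theorem loo_one {Y : Type} [Fintype Y] {k : ℕ} (l : Fin (k + 1)) (R : (Fin k → Y) → Y → Prop) :
    Nat.card {z : Fin (k + 1) → Y // ¬ R (del z l) (z l)} =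
      Nat.card {t : (Fin k → Y) × Y // ¬ R t.1 t.2} := by
  refine Nat.card_congr (Equiv.subtypeEquiv
    ((Fin.insertNthEquiv (fun _ => Y) l).symm.trans (Equiv.prodComm _ _)) fun z => ?_)
  rfl

theorem loo_count {Y : Type} [Fintype Y] {k : ℕ} (P : (Fin k → Y) → Prop)
    (Q : (Fin k → Y) → Y → Prop) (a b : ℝ) (hb0 : 0 ≤ b)
    (ha : (Nat.card {z : Fin k → Y // ¬ P z} : ℝ) ≤ (Fintype.card Y : ℝ) ^ k * a)
    (hb : ∀ z, P z → (Nat.card {y : Y // ¬ Q z y} : ℝ) ≤ Fintype.card Y * b) :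
    (Nat.card {z : Fin (k + 1) → Y // ¬ ∀ l, P (del z l) ∧ Q (del z l) (z l)} : ℝ) ≤
      (Fintype.card Y : ℝ) ^ (k + 1) * (((k : ℝ) + 1) * (a + b)) := by
  classical
  have h1 : ∀ l : Fin (k + 1), (Nat.card {z : Fin (k + 1) → Y //
      ¬ (P (del z l) ∧ Q (del z l) (z l))} : ℝ) ≤ (Fintype.card Y : ℝ) ^ (k + 1) * (a + b) := by
    intro l
    have h2 := two_count (Z := Fin k → Y) (Y := Y) P Q a b hb0
      (by rw [Fintype.card_fun, Fintype.card_fin]; push_cast; exact ha) hb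
    rw [loo_one l (fun z y => P z ∧ Q z y)]
    refine h2.trans (le_of_eq ?_)
    rw [Fintype.card_fun, Fintype.card_fin]
    push_cast
    rw [pow_succ]
  have h3 : (Nat.card {z : Fin (k + 1) → Y // ¬ ∀ l, P (del z l) ∧ Q (del z l) (z l)} : ℝ) ≤
      ∑ l : Fin (k + 1), (Nat.card {z : Fin (k + 1) → Y //
        ¬ (P (del z l) ∧ Q (del z l) (z l))} : ℝ) := by
    simp only [Nat.card_eq_fintype_card, Fintype.card_subtype]
    have h4 : (Finset.univ.filter fun z : Fin (k + 1) → Y =>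
        ¬ ∀ l, P (del z l) ∧ Q (del z l) (z l)) ⊆
        Finset.univ.biUnion fun l => Finset.univ.filter fun z : Fin (k + 1) → Y =>
          ¬ (P (del z l) ∧ Q (del z l) (z l)) := by
      intro z hz
      have h5 := (Finset.mem_filter.1 hz).2
      push Not at h5
      obtain ⟨l, hl⟩ := h5
      refine Finset.mem_biUnion.2 ⟨l, Finset.mem_univ _, Finset.mem_filter.2
        ⟨Finset.mem_univ _, fun h => hl h.1 h.2⟩⟩
    have h6 := (Finset.card_le_card h4).trans Finset.card_biUnion_le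
    exact_mod_cast h6
  refine h3.trans ((Finset.sum_le_sum fun l _ => h1 l).trans (le_of_eq ?_))
  rw [Finset.sum_const, Finset.card_univ, Fintype.card_fin, nsmul_eq_mul]
  push_cast
  ring

/-- the average of `k + 1` elements is the average of the averages of `k` of them -/
theorem avgRe_del {d : Type} [Fintype d] [DecidableEq d] {k : ℕ} (hk : 0 < k)
    (u : Fin (k + 1) → Matrix d d ℂ) :
    ((k : ℝ) + 1) • avgRe u = ∑ l : Fin (k + 1), avgRe fun i : Fin k => u (l.succAbove i) := by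
  have hk' : (k : ℝ) ≠ 0 := by positivity
  have h1 : ∀ l : Fin (k + 1), ∑ i : Fin k, (u (l.succAbove i) + (u (l.succAbove i))ᴴ) =
      ∑ i, (u i + (u i)ᴴ) - (u l + (u l)ᴴ) := by
    intro l
    rw [Fin.sum_univ_succAbove _ l]
    abel
  unfold avgRe
  rw [← Finset.smul_sum]
  simp_rw [h1]
  rw [Finset.sum_sub_distrib, Finset.sum_const, Finset.card_univ, Fintype.card_fin, smul_smul]
  have h2 : (k + 1) • ∑ i, (u i + (u i)ᴴ) - ∑ l, (u l + (u l)ᴴ) =
      (k : ℝ) • ∑ i, (u i + (u i)ᴴ) := by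
    rw [← Nat.cast_smul_eq_nsmul ℝ]
    push_cast
    module
  rw [h2, smul_smul]
  congr 1
  push_cast
  have : (k : ℝ) + 1 ≠ 0 := by positivity
  field_simp

theorem good_del (F : PW (Perm (Fin n))) {k : ℕ} (hk : 0 < k) (z : Fin (k + 1) → Alt n)
    (p : ℕ) (ε : ℝ) (h : ∀ l, Good F (tupW (del z l)) p ε) : Good F (tupW z) p ε := by
  intro i hi hf
  have hu := (F.irr i).unit
  have h1 := posSemidef_sum Finset.univ fun l (_ : l ∈ Finset.univ) => h l i hi hf
  have h2 : ∑ l : Fin (k + 1), ((1 - ε) • (1 : Matrix (Fin (F.D i)) (Fin (F.D i)) ℂ) -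
      wop (F.ρ i) (tupW (del z l))) =
      ((k : ℝ) + 1) • ((1 - ε) • (1 : Matrix (Fin (F.D i)) (Fin (F.D i)) ℂ) -
        wop (F.ρ i) (tupW z)) := by
    have h3 := avgRe_del hk fun l => F.ρ i (z l : Perm (Fin n))
    rw [Finset.sum_sub_distrib, Finset.sum_const, Finset.card_univ, Fintype.card_fin,
      ← Nat.cast_smul_eq_nsmul ℝ]
    have h4 : ∀ l, wop (F.ρ i) (tupW (del z l)) =
        avgRe fun j : Fin k => F.ρ i (z (l.succAbove j) : Perm (Fin n)) := fun l =>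
      wop_tupW (F.ρ i) hu (del z l)
    simp_rw [h4]
    rw [← h3, ← wop_tupW (F.ρ i) hu z]
    push_cast
    module
  rw [h2] at h1
  have h5 := h1.smul (show (0 : ℝ) ≤ ((k : ℝ) + 1)⁻¹ by positivity)
  rwa [smul_smul, inv_mul_cancel₀ (by positivity), one_smul] at h5

theorem dn_of_ov (hO : S_OVER) (F : PW (Perm (Fin n))) {k : ℕ} (hk : 0 < k)
    (z : Fin (k + 1) → Alt n) (p p' : ℕ) (δ δ' : ℝ) (τ : ℕ → ℝ) (h0 : 0 ≤ δ')
    (h1 : δ' + 80 / ((k : ℝ) + 1) ≤ δ) (h2 : δ ≤ 1 / 100)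
    (h : ∀ l, Ov F (del z l) p p' δ τ (z l)) : Dn F z p p' δ' (fun r => 3 * τ r) := by
  intro i r hr1 hr2 hf hnf
  have h3 := hO (Fin (F.D i)) k (fun l => F.ρ i (z l : Perm (Fin n))) δ δ' (τ r * F.D i) hk
    (fun l => (F.irr i).unit _) h0 h1 h2 (fun l => h l i r hr1 hr2 hf hnf)
  refine h3.trans (le_of_eq ?_)
  ring

/-- monotonicity in the threshold -/
theorem Dn.mono {F : PW (Perm (Fin n))} {k : ℕ} {z : Fin k → Alt n} {p p' : ℕ} {δ δ' : ℝ}
    {τ τ' : ℕ → ℝ} (h : Dn F z p p' δ τ) (hδ : δ' ≤ δ)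
    (hτ : ∀ r, p < r → r ≤ p' → τ r ≤ τ' r) : Dn F z p p' δ' τ' := by
  intro i r h1 h2 hf hnf
  have h3 := h i r h1 h2 hf hnf
  have h4 : Fintype.card (TopIdx (tup_isHermitian (F.ρ i) z) (1 - δ')) ≤
      Fintype.card (TopIdx (tup_isHermitian (F.ρ i) z) (1 - δ)) :=
    Fintype.card_le_of_injective (fun j => ⟨j.1, by linarith [j.2]⟩) (by
      intro a b hab
      have := congrArg Subtype.val hab
      exact Subtype.ext this)
  have h5 : (Fintype.card (TopIdx (tup_isHermitian (F.ρ i) z) (1 - δ')) : ℝ) ≤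
      Fintype.card (TopIdx (tup_isHermitian (F.ρ i) z) (1 - δ)) := by exact_mod_cast h4
  refine h5.trans (h3.trans ?_)
  exact mul_le_mul_of_nonneg_right (hτ r h1 h2) (Nat.cast_nonneg _)

/-- exact levels are unique -/
theorem level_unique {D : ℕ} {ρ : Perm (Fin n) →* Matrix (Fin D) (Fin D) ℂ} {r s : ℕ}
    (h1 : HasFix ρ (stab n r)) (h2 : ¬ HasFix ρ (stab n (r - 1))) (h3 : HasFix ρ (stab n s))
    (h4 : ¬ HasFix ρ (stab n (s - 1))) : r = s := by
  rcases lt_trichotomy r s with h | h | h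
  · exact absurd (h1.mono (by omega)) h4
  · exact h
  · exact absurd (h3.mono (by omega)) h2

/-- Markov inequality and union over the representations -/
theorem ov_count (F : PW (Perm (Fin n))) {k : ℕ} (z : Fin k → Alt n) (p p' : ℕ) (δ : ℝ)
    (β τ : ℕ → ℝ) (η : ℝ) (hη : 0 ≤ η) (hτ : ∀ r, p < r → r ≤ p' → 0 < τ r)
    (hβ : ∀ r, p < r → r ≤ p' → β r ≤ η * τ r)
    (h : ∀ i r, p < r → r ≤ p' → HasFix (F.ρ i) (stab n r) →
      ¬ HasFix (F.ρ i) (stab n (r - 1)) →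
      ∑ y : Alt n, (ovc (F.ρ i (y : Perm (Fin n))) (topP_isHermitian
        (tup_isHermitian (F.ρ i) z) (1 - δ)) : ℝ) ≤ Fintype.card (Alt n) * (β r * F.D i)) :
    (Nat.card {y : Alt n // ¬ Ov F z p p' δ τ y} : ℝ) ≤
      Fintype.card (Alt n) * (F.c * η) := by
  classical
  set f : Fin F.c → Alt n → ℝ := fun i y => (ovc (F.ρ i (y : Perm (Fin n))) (topP_isHermitian
    (tup_isHermitian (F.ρ i) z) (1 - δ)) : ℝ) with hf
  set B : Fin F.c → Finset (Alt n) := fun i => Finset.univ.filter fun y =>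
    ∃ r, p < r ∧ r ≤ p' ∧ HasFix (F.ρ i) (stab n r) ∧ ¬ HasFix (F.ρ i) (stab n (r - 1)) ∧
      τ r * F.D i < f i y with hB
  have hA : (0 : ℝ) ≤ Fintype.card (Alt n) := Nat.cast_nonneg _
  have h1 : ∀ i, ((B i).card : ℝ) ≤ Fintype.card (Alt n) * η := by
    intro i
    by_cases hex : ∃ r, p < r ∧ r ≤ p' ∧ HasFix (F.ρ i) (stab n r) ∧
        ¬ HasFix (F.ρ i) (stab n (r - 1))
    · obtain ⟨r, hr1, hr2, hr3, hr4⟩ := hex
      have hD : (0 : ℝ) < F.D i := by exact_mod_cast (F.irr i).pos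
      have ht := hτ r hr1 hr2
      have h2 : ((B i).card : ℝ) * (τ r * F.D i) ≤ ∑ y, f i y := by
        rw [← nsmul_eq_mul]
        refine (Finset.card_nsmul_le_sum (B i) (f i) _ fun y hy => ?_).trans
          (Finset.sum_le_sum_of_subset_of_nonneg (Finset.subset_univ _) fun y _ _ =>
            Nat.cast_nonneg _)
        obtain ⟨s, hs1, hs2, hs3, hs4, hs5⟩ := (Finset.mem_filter.1 hy).2
        have : s = r := level_unique hs3 hs4 hr3 hr4
        subst this
        exact hs5.le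
      have h3 := h2.trans (h i r hr1 hr2 hr3 hr4)
      have h4 : (Fintype.card (Alt n) : ℝ) * (β r * F.D i) ≤
          Fintype.card (Alt n) * η * (τ r * F.D i) := by
        have := hβ r hr1 hr2
        calc (Fintype.card (Alt n) : ℝ) * (β r * F.D i) ≤
            Fintype.card (Alt n) * (η * τ r * F.D i) := by gcongr
          _ = _ := by ring
      exact le_of_mul_le_mul_right (h3.trans h4) (by positivity)
    · have : B i = ∅ := by
        refine Finset.eq_empty_of_forall_notMem fun y hy => hex ?_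
        obtain ⟨s, hs1, hs2, hs3, hs4, _⟩ := (Finset.mem_filter.1 hy).2
        exact ⟨s, hs1, hs2, hs3, hs4⟩
      rw [this]
      simp only [Finset.card_empty, Nat.cast_zero]
      positivity
  have h5 : (Nat.card {y : Alt n // ¬ Ov F z p p' δ τ y} : ℝ) ≤ ∑ i, ((B i).card : ℝ) := by
    rw [Nat.card_eq_fintype_card, Fintype.card_subtype]
    have h6 : (Finset.univ.filter fun y : Alt n => ¬ Ov F z p p' δ τ y) ⊆
        Finset.univ.biUnion B := by
      intro y hy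
      have h7 := (Finset.mem_filter.1 hy).2
      unfold Ov at h7
      push Not at h7
      obtain ⟨i, r, g1, g2, g3, g4, g5⟩ := h7
      exact Finset.mem_biUnion.2 ⟨i, Finset.mem_univ _, Finset.mem_filter.2
        ⟨Finset.mem_univ _, r, g1, g2, g3, g4, g5⟩⟩
    exact_mod_cast (Finset.card_le_card h6).trans Finset.card_biUnion_le
  refine h5.trans ((Finset.sum_le_sum fun i _ => h1 i).trans (le_of_eq ?_))
  rw [Finset.sum_const, Finset.card_univ, Fintype.card_fin, nsmul_eq_mul]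
  ring

/-- doubling: the sum of the overlaps -/
theorem dbl_sum (hD : S_DBL) (hn : 2 ≤ n) (F : PW (Perm (Fin n))) {k : ℕ} (z : Fin k → Alt n)
    (p p' : ℕ) (δ : ℝ) (τ : ℕ → ℝ) (h : Dn F z p p' δ τ) (i : Fin F.c) (r : ℕ) (h1 : p < r)
    (h2 : r ≤ p') (hf : HasFix (F.ρ i) (stab n r)) (hnf : ¬ HasFix (F.ρ i) (stab n (r - 1))) :
    ∑ y : Alt n, (ovc (F.ρ i (y : Perm (Fin n))) (topP_isHermitian
        (tup_isHermitian (F.ρ i) z) (1 - δ)) : ℝ) ≤
      Fintype.card (Alt n) * (8 * τ r ^ 2 * F.D i) := by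
  have hDp : (0 : ℝ) < F.D i := by exact_mod_cast (F.irr i).pos
  have h3 := hD n (F.D i) (F.ρ i) (F.irr i) hn _ (tup_isHermitian (F.ρ i) z) (1 - δ)
  have h4 := h i r h1 h2 hf hnf
  refine h3.trans ?_
  rw [div_le_iff₀ hDp]
  have h5 : (Fintype.card (TopIdx (tup_isHermitian (F.ρ i) z) (1 - δ)) : ℝ) ^ 2 ≤
      (τ r * F.D i) ^ 2 := pow_le_pow_left₀ (Nat.cast_nonneg _) h4 2
  calc 8 * (Fintype.card (Alt n) : ℝ) *
      (Fintype.card (TopIdx (tup_isHermitian (F.ρ i) z) (1 - δ)) : ℝ) ^ 2 ≤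
      8 * (Fintype.card (Alt n) : ℝ) * (τ r * F.D i) ^ 2 := by gcongr
    _ = _ := by ring

end Pool.Agent.Helper73.LL
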