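import Pool.Agent.Helper73.LL.Level

/-! Existence of the parameters of a sweep. -/

set_option linter.unusedSectionVars false

namespace Pool.Agent.Helper73.LL

open Matrix Equiv Filter Topology Pool.Agent.Helper15.An Pool.Agent.Helper6.W
  Pool.Agent.Helper6.FixK
open scoped ComplexOrder

/-- the gap of the context may be changed -/
theorem nc_change {n : ℕ} {L ell e θ x : ℝ} {p r N q l r1 F1 F2 f : ℕ}
    (c : NC n L ell e θ x p r N q l r1 F1 F2 f) {e' : ℝ} (h0 : 0 < e') (h1 : e' ≤ 1 / 200) :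
    ∃ l', NC n L ell e' θ x p r N q l' r1 F1 F2 f := by
  set ε : ℝ := -Real.log (1 - e' / 2) with hε
  have hε0 : 0 < ε := by
    rw [hε, neg_pos]
    exact Real.log_neg (by linarith) (by linarith)
  have hL := c.hL
  have hL0 : 0 ≤ L := by linarith
  have hr0 : (0 : ℝ) ≤ r1 * L := by positivity
  set l' : ℕ := ⌈(r1 : ℝ) * L / (2 * ε)⌉₊ with hl'
  have h2 : (r1 : ℝ) * L / (2 * ε) ≤ l' := Nat.le_ceil _
  have h3 : (l' : ℝ) < (r1 : ℝ) * L / (2 * ε) + 1 := Nat.ceil_lt_add_one (by positivity)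
  refine ⟨l', { c with he := h0, he1 := h1, hl1 := ?_, hl2 := ?_ }⟩
  · rw [← hε]
    rw [div_le_iff₀ (by positivity)] at h2
    linarith
  · rw [← hε]
    have h4 : (l' : ℝ) * (2 * ε) ≤ ((r1 : ℝ) * L / (2 * ε) + 1) * (2 * ε) := by gcongr
    have h5 : ((r1 : ℝ) * L / (2 * ε) + 1) * (2 * ε) = r1 * L + 2 * ε := by field_simp
    linarith

theorem nc_uniform (h : S_NC) : ∀ᶠ n : ℕ in atTop, ∀ (e ell θ x : ℝ) (r : ℕ),
    0 < e → e ≤ 1 / 200 → 1000 ≤ ell → 4000 * ell ≤ Real.log n →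
    100 * ell ≤ θ * Real.log n → θ ≤ 1 → 1 ≤ θ * (100 * Real.log (Real.log n)) → 0 ≤ x →
    x ≤ 1 - θ → ⌊Real.exp (Real.log n - ell)⌋₊ < r →
    r ≤ ⌊Real.exp (Real.log n - 3 / 4 * ell)⌋₊ →
    ∃ N q l r1 F1 F2 f : ℕ,
      NC n (Real.log n) ell e θ x ⌊Real.exp (Real.log n - ell)⌋₊ r N q l r1 F1 F2 f := by
  filter_upwards [h (1 / 200) (by norm_num) le_rfl] with n hn e ell θ x r h0 h1 h2 h3 h4 h5 h6
    h7 h8 h9 h10
  obtain ⟨N, q, l, r1, F1, F2, f, c⟩ := hn ell θ x r h2 h3 h4 h5 h6 h7 h8 h9 h10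
  obtain ⟨l', c'⟩ := nc_change c h0 h1
  exact ⟨N, q, l', r1, F1, F2, f, c'⟩

/-- number of doublings -/
noncomputable def hN (n : ℕ) : ℕ := ⌈3 * Real.log (Real.log n)⌉₊

theorem ev_log_pow (C : ℝ) (m : ℕ) : ∀ᶠ L : ℝ in atTop,
    C * Real.log L ^ m ≤ L ^ (1 / 5 : ℝ) := by
  have h1 : (fun L : ℝ => Real.log L ^ (m : ℝ)) =o[atTop] fun L : ℝ => L ^ (1 / 5 : ℝ) :=
    isLittleO_log_rpow_rpow_atTop _ (by norm_num)
  have h2 := h1.def (show (0 : ℝ) < (|C| + 1)⁻¹ by positivity)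
  filter_upwards [h2, eventually_ge_atTop 1] with L hL hL1
  have h3 : 0 ≤ Real.log L := Real.log_nonneg hL1
  rw [Real.norm_of_nonneg (by positivity), Real.norm_of_nonneg (by positivity),
    Real.rpow_natCast] at hL
  have h4 : (|C| + 1) * Real.log L ^ m ≤ L ^ (1 / 5 : ℝ) := by
    calc (|C| + 1) * Real.log L ^ m ≤ (|C| + 1) * ((|C| + 1)⁻¹ * L ^ (1 / 5 : ℝ)) := by gcongr
      _ = L ^ (1 / 5 : ℝ) := by field_simp
  have h5 : 0 ≤ Real.log L ^ m := by positivity
  have h6 : C ≤ |C| + 1 := by linarith [le_abs_self C]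
  nlinarith

/-- numerical facts for the conditions of a sweep -/
structure Big (L : ℝ) : Prop where
  hL : 10 ^ 9 ≤ L
  kill : 1600000 * Real.log L ^ 2 * L ≤ L ^ (6 / 5 : ℝ)
  exp1 : 10 ^ 15 * Real.log L ^ 2 * L ≤ Real.exp (L / 4)

theorem big_ev : ∀ᶠ L : ℝ in atTop, Big L := by
  have h2 : ∀ᶠ L : ℝ in atTop, 10 ^ 15 * L ^ 2 ≤ Real.exp (L / 4) := by
    have h3 := Pool.Agent.Helper6.E.ev_poly (b := 1 / 4) (by norm_num) (10 ^ 15) 2
    filter_upwards [h3] with L hL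
    rw [show L / 4 = 1 / 4 * L by ring]
    exact hL
  filter_upwards [eventually_ge_atTop (10 ^ 9), ev_log_pow 1600000 2, h2, ev_log_pow 1 2]
    with L h1 h2 h3 h4
  have hL0 : 0 < L := by linarith
  have hL1 : 1 ≤ L := by linarith
  refine ⟨h1, ?_, ?_⟩
  · calc 1600000 * Real.log L ^ 2 * L ≤ L ^ (1 / 5 : ℝ) * L := by gcongr
      _ = L ^ (6 / 5 : ℝ) := by
        rw [← Real.rpow_add_one hL0.ne']
        norm_num
  · refine le_trans ?_ h3
    have h5 : L ^ (1 / 5 : ℝ) ≤ L := by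
      calc L ^ (1 / 5 : ℝ) ≤ L ^ (1 : ℝ) := Real.rpow_le_rpow_of_exponent_le hL1 (by norm_num)
        _ = L := Real.rpow_one L
    have h6 : Real.log L ^ 2 ≤ L := by linarith
    nlinarith

theorem sc_exists (h : S_NC) : ∀ᶠ n : ℕ in atTop, ∀ (e ell θ : ℝ) (k₀ : ℕ),
    0 < e → e ≤ 1 / 200 → 1000 ≤ ell → 4000 * ell ≤ Real.log n →
    100 * ell ≤ θ * Real.log n → θ ≤ 1 → 1 ≤ θ * (100 * Real.log (Real.log n)) →
    2 * 10 ^ 8 * Real.log (Real.log n) ^ 3 / e ≤ k₀ → SC n ell e θ (hN n) k₀ := by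
  filter_upwards [nc_uniform h, tendsto_log_nat.eventually big_ev, eventually_ge_atTop 3]
    with n hnc big hn3 e ell θ k₀ he0 he1 hell hell2 hθ hθ1 hθ2 hk
  set L : ℝ := Real.log n with hLdef
  set l2 : ℝ := Real.log L with hl2
  have hL := big.hL
  have hL0 : 0 < L := by linarith
  have hl2' : 20 ≤ l2 := by
    rw [hl2]
    have h1 : Real.log (10 ^ 9) ≤ Real.log L := Real.log_le_log (by norm_num) hL
    have h2 : Real.log (10 ^ 9) = 9 * Real.log 10 := by
      rw [Real.log_pow]; norm_num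
    have h3 : Real.log 10 = Real.log 2 + Real.log 5 := by
      rw [← Real.log_mul (by norm_num) (by norm_num)]; norm_num
    have h4 : Real.log 4 ≤ Real.log 5 := Real.log_le_log (by norm_num) (by norm_num)
    have h5 : Real.log 4 = 2 * Real.log 2 := by
      rw [show (4 : ℝ) = 2 ^ 2 by norm_num, Real.log_pow]; norm_num
    have h6 := Real.log_two_gt_d9
    -- 9 * 3 * 0.69 = 18.7: use log 10 > 2.3
    have h7 : (23 / 10 : ℝ) ≤ Real.log 10 := by
      rw [Real.le_log_iff_exp_le (by norm_num)]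
      have h8 : Real.exp (23 / 10) = Real.exp 1 ^ 2 * Real.exp (3 / 10) := by
        rw [← Real.exp_nat_mul, ← Real.exp_add]; norm_num
      have h9 := Real.exp_one_lt_d9
      have h10 : Real.exp (3 / 10) ≤ 1.35 := by
        have := Real.exp_bound' (x := 3 / 10) (by norm_num) (by norm_num) (n := 4) (by norm_num)
        refine this.trans ?_
        norm_num [Finset.sum_range_succ, Nat.factorial]
      rw [h8]
      have h11 : Real.exp 1 ^ 2 ≤ 2.7182818286 ^ 2 :=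
        pow_le_pow_left₀ (Real.exp_pos _).le h9.le 2
      calc Real.exp 1 ^ 2 * Real.exp (3 / 10) ≤ 2.7182818286 ^ 2 * 1.35 := by gcongr
        _ ≤ 10 := by norm_num
    linarith
  have hl0 : 0 < l2 := by linarith
  have hθ0 : 0 < θ := by
    by_contra hcon
    rw [not_lt] at hcon
    have : θ * (100 * l2) ≤ 0 := mul_nonpos_of_nonpos_of_nonneg hcon (by positivity)
    linarith
  have hell0 : 0 < ell := by linarith
  have hθsq : 1 ≤ θ ^ 2 * (10000 * l2 ^ 2) := by
    have : (1 : ℝ) ^ 2 ≤ (θ * (100 * l2)) ^ 2 := pow_le_pow_left₀ (by norm_num) hθ2 2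
    nlinarith
  have hnexp : Real.exp L = n := by
    rw [hLdef]
    apply Real.exp_log
    have : 0 < n := by omega
    exact_mod_cast this
  have hn0 : (0 : ℝ) < n := by rw [← hnexp]; exact Real.exp_pos _
  -- size of the level
  have hp : Real.exp (3 / 4 * L) ≤ ⌊Real.exp (L - ell)⌋₊ := by
    have h1 : Real.exp (L - ell) < (⌊Real.exp (L - ell)⌋₊ : ℝ) + 1 := Nat.lt_floor_add_one _
    have h2 : Real.exp (3 / 4 * L) + 1 ≤ Real.exp (L - ell) := by
      have h3 : Real.exp (3 / 4 * L) * 2 ≤ Real.exp (L - ell) := by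
        have h4 : (2 : ℝ) ≤ Real.exp (L / 10) := by
          have := Real.add_one_le_exp (L / 10)
          linarith
        calc Real.exp (3 / 4 * L) * 2 ≤ Real.exp (3 / 4 * L) * Real.exp (L / 10) := by gcongr
          _ = Real.exp (3 / 4 * L + L / 10) := by rw [Real.exp_add]
          _ ≤ Real.exp (L - ell) := by
            apply Real.exp_le_exp.2
            linarith
      have h5 : 1 ≤ Real.exp (3 / 4 * L) := Real.one_le_exp (by positivity)
      linarith
    linarith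
  set p : ℝ := ((⌊Real.exp (L - ell)⌋₊ : ℕ) : ℝ) with hpdef
  -- the exponent
  have hE : Real.exp (L / 2) * (10 * L) ≤ θ ^ 2 * ell / 80000 * p / 2 := by
    have h1 : Real.exp (3 / 4 * L) = Real.exp (L / 2) * Real.exp (L / 4) := by
      rw [← Real.exp_add]; congr 1; ring
    have h2 := big.exp1
    have h3 : 0 < Real.exp (L / 2) := Real.exp_pos _
    have h4 : Real.exp (L / 2) * (10 ^ 15 * l2 ^ 2 * L) ≤ p := by
      refine le_trans ?_ hp
      rw [h1]
      gcongr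
    have hp0 : 0 ≤ p := Nat.cast_nonneg _
    have h5 : θ ^ 2 * 1000 / 80000 * p / 2 ≤ θ ^ 2 * ell / 80000 * p / 2 := by gcongr
    refine le_trans ?_ h5
    have h6 : θ ^ 2 * (Real.exp (L / 2) * (10 ^ 15 * l2 ^ 2 * L)) ≤ θ ^ 2 * p := by gcongr
    have h7 : Real.exp (L / 2) * L * 1 ≤ Real.exp (L / 2) * L * (θ ^ 2 * (10000 * l2 ^ 2)) := by
      gcongr
    nlinarith
  have hexpL : 1 ≤ Real.exp (L / 2) := Real.one_le_exp (by positivity)
  refine
    { n3 := hn3
      he := he0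
      he1 := he1
      hθ0 := hθ0
      hθ1 := hθ1
      hell := hell0
      hk₀ := ?_
      nc := fun x r h7 h8 h9 h10 => hnc e ell θ x r he0 he1 hell hell2 hθ hθ1 hθ2 h7 h8 h9 h10
      e1 := ?_
      union := ?_
      kill := ?_
      shift := ?_
      top := ?_ }
  · have h1 : 0 < 2 * 10 ^ 8 * l2 ^ 3 / e := by positivity
    have h2 : (0 : ℝ) < k₀ := lt_of_lt_of_le h1 hk
    exact_mod_cast h2
  · have h1 := Real.add_one_le_exp (θ ^ 2 * ell / 80000 * p)
    have h2 : 10 * L ≤ Real.exp (L / 2) * (10 * L) := by nlinarith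
    linarith
  · -- union
    have hsq : (Nat.sqrt n : ℝ) ≤ Real.exp (L / 2) := by
      have h1 : (Nat.sqrt n : ℝ) ≤ Real.sqrt n := Real.nat_sqrt_le_real_sqrt
      have h2 : Real.sqrt n = Real.exp (L / 2) := by
        rw [← hnexp, Real.exp_half]
      linarith
    have hn1 : ((n : ℝ) + 1) ≤ Real.exp (2 * L) := by
      have h1 : Real.exp (2 * L) = n * n := by
        rw [two_mul, Real.exp_add, hnexp]
      rw [h1]
      have : (3 : ℝ) ≤ n := by exact_mod_cast hn3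
      nlinarith
    have h1 : ((n : ℝ) + 1) ^ (2 * (Nat.sqrt n + 1)) ≤
        Real.exp ((2 * (Real.exp (L / 2) + 1)) * (2 * L)) := by
      calc ((n : ℝ) + 1) ^ (2 * (Nat.sqrt n + 1)) ≤
          Real.exp (2 * L) ^ (2 * (Nat.sqrt n + 1)) := by gcongr
        _ = Real.exp (((2 * (Nat.sqrt n + 1) : ℕ) : ℝ) * (2 * L)) := by
          rw [← Real.exp_nat_mul]
        _ ≤ _ := by
          apply Real.exp_le_exp.2
          push_cast
          gcongr
    have h2 : ((n : ℝ) ^ 2)⁻¹ = Real.exp (-(2 * L)) := by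
      rw [Real.exp_neg]
      congr 1
      rw [two_mul, Real.exp_add, hnexp]
      ring
    have h3 : (24 : ℝ) ≤ Real.exp L := by
      have := Real.add_one_le_exp L
      linarith
    rw [h2]
    calc ((n : ℝ) + 1) ^ (2 * (Nat.sqrt n + 1)) *
        (24 * Real.exp (-(θ ^ 2 * ell / 80000 * p / 2))) ≤
        Real.exp ((2 * (Real.exp (L / 2) + 1)) * (2 * L)) *
          (Real.exp L * Real.exp (-(Real.exp (L / 2) * (10 * L)))) := by
          gcongr
      _ = Real.exp ((2 * (Real.exp (L / 2) + 1)) * (2 * L) + L +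
          -(Real.exp (L / 2) * (10 * L))) := by
          rw [Real.exp_add, Real.exp_add]; ring
      _ ≤ Real.exp (-(2 * L)) := by
          apply Real.exp_le_exp.2
          have h4 : (10 : ℝ) ≤ Real.exp (L / 2) := by
            have := Real.add_one_le_exp (L / 2)
            linarith
          nlinarith
  · -- kill
    have h1 : L ^ (6 / 5 : ℝ) ≤ (3 / 2 : ℝ) ^ hN n := by
      have h2 : (3 : ℝ) * l2 ≤ hN n := Nat.le_ceil _
      have h3 : L ^ (6 / 5 : ℝ) = Real.exp (6 / 5 * l2) := by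
        rw [Real.rpow_def_of_pos hL0, mul_comm]
      have h4 : Real.exp (2 / 5) ≤ 3 / 2 := by
        have := Real.exp_bound' (x := 2 / 5) (by norm_num) (by norm_num) (n := 5) (by norm_num)
        refine this.trans ?_
        norm_num [Finset.sum_range_succ, Nat.factorial]
      rw [h3]
      calc Real.exp (6 / 5 * l2) = Real.exp (2 / 5 * (3 * l2)) := by congr 1; ring
        _ ≤ Real.exp (2 / 5 * hN n) := by
          apply Real.exp_le_exp.2
          gcongr
        _ = Real.exp (2 / 5) ^ hN n := by rw [mul_comm, Real.exp_nat_mul]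
        _ ≤ (3 / 2) ^ hN n := by gcongr
    have h2 := big.kill
    have h3 : 0 < (3 / 2 : ℝ) ^ hN n := by positivity
    have h4 : 1600000 * l2 ^ 2 * L ≤ (3 / 2 : ℝ) ^ hN n := h2.trans h1
    have h5 : (3 / 2 : ℝ) ^ hN n * (θ ^ 2 * 1000 / 80000) ≤
        (3 / 2) ^ hN n * (θ ^ 2 * ell / 80000) := by gcongr
    refine le_trans ?_ h5
    have h6 : θ ^ 2 * (1600000 * l2 ^ 2 * L) ≤ θ ^ 2 * (3 / 2 : ℝ) ^ hN n := by gcongr
    have h7 : L * 1 ≤ L * (θ ^ 2 * (10000 * l2 ^ 2)) := by gcongr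
    nlinarith
  · -- shift
    have h1 : 0 < 2 * 10 ^ 8 * l2 ^ 3 / e := by positivity
    have hk0 : (0 : ℝ) < k₀ := lt_of_lt_of_le h1 hk
    have h2 : (hN n : ℝ) < 3 * l2 + 1 := Nat.ceil_lt_add_one (by positivity)
    rw [div_le_iff₀ hk0]
    rw [div_le_iff₀ he0] at hk
    have h3 : 80 * ((hN n : ℝ) + 1) ≤ 80 * (4 * l2) := by linarith
    refine h3.trans ?_
    have h4 : θ ^ 2 * (2 * 10 ^ 8 * l2 ^ 3) ≤ θ ^ 2 * (k₀ * e) := by gcongr
    have h5 : l2 * 1 ≤ l2 * (θ ^ 2 * (10000 * l2 ^ 2)) := by gcongr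
    nlinarith
  · -- top
    have h1 : (⌊Real.exp (L - 3 / 4 * ell)⌋₊ : ℝ) ≤ Real.exp (L - 3 / 4 * ell) :=
      Nat.floor_le (Real.exp_pos _).le
    have h2 : Real.exp (L - 3 / 4 * ell) ≤ n := by
      rw [← hnexp]
      apply Real.exp_le_exp.2
      linarith
    exact_mod_cast h1.trans h2

end Pool.Agent.Helper73.LL
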