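import Pool.Agent.Helper73.LL.YStep
import Pool.Agent.Helper6.E.Main

/-! One sweep: a fresh element and `h` doublings. -/

set_option linter.unusedSectionVars false

namespace Pool.Agent.Helper73.LL

open Matrix Equiv Filter Topology Pool.Agent.Helper15.An Pool.Agent.Helper6.W
  Pool.Agent.Helper6.FixK
open scoped ComplexOrder

variable {n : ℕ}

/-- the fraction of the tuples without the property `P` is at most `q` -/
def Fl {n k : ℕ} (P : (Fin k → Alt n) → Prop) (q : ℝ) : Prop :=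
  (Nat.card {z : Fin k → Alt n // ¬ P z} : ℝ) ≤ (Fintype.card (Alt n) : ℝ) ^ k * q

theorem Fl.mono {k : ℕ} {P P' : (Fin k → Alt n) → Prop} {q q' : ℝ} (h : Fl P q)
    (hP : ∀ z, P z → P' z) (hq : q ≤ q') : Fl P' q' := by
  unfold Fl at h ⊢
  have h1 : Nat.card {z : Fin k → Alt n // ¬ P' z} ≤ Nat.card {z : Fin k → Alt n // ¬ P z} :=
    Nat.card_le_card_of_injective (fun z => ⟨z.1, fun hz => z.2 (hP _ hz)⟩) (by
      intro a b hab
      have := congrArg Subtype.val hab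
      exact Subtype.ext this)
  calc (Nat.card {z : Fin k → Alt n // ¬ P' z} : ℝ) ≤
      Nat.card {z : Fin k → Alt n // ¬ P z} := by exact_mod_cast h1
    _ ≤ (Fintype.card (Alt n) : ℝ) ^ k * q := h
    _ ≤ _ := by gcongr

/-- one more element -/
theorem step_fl {k : ℕ} (P : (Fin k → Alt n) → Prop) (Q : (Fin k → Alt n) → Alt n → Prop)
    (P' : (Fin (k + 1) → Alt n) → Prop) (a b K : ℝ) (hb0 : 0 ≤ b) (hba : b ≤ a)
    (hK : (k : ℝ) + 1 ≤ K) (ha : Fl P a)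
    (hb : ∀ z, P z → (Nat.card {y : Alt n // ¬ Q z y} : ℝ) ≤ Fintype.card (Alt n) * b)
    (h : ∀ z, (∀ l, P (del z l) ∧ Q (del z l) (z l)) → P' z) : Fl P' (2 * K * a) := by
  have h1 := loo_count P Q a b hb0 ha hb
  have h2 : Fl (fun z : Fin (k + 1) → Alt n => ∀ l, P (del z l) ∧ Q (del z l) (z l))
      (((k : ℝ) + 1) * (a + b)) := h1
  refine h2.mono h ?_
  have ha0 : 0 ≤ a := hb0.trans hba
  have hk0 : (0 : ℝ) ≤ k := Nat.cast_nonneg _
  nlinarith

/-- conditions of a sweep -/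
structure SC (n : ℕ) (ell e θ : ℝ) (h k₀ : ℕ) : Prop where
  n3 : 3 ≤ n
  he : 0 < e
  he1 : e ≤ 1 / 200
  hθ0 : 0 < θ
  hθ1 : θ ≤ 1
  hell : 0 < ell
  hk₀ : 0 < k₀
  nc : ∀ (x : ℝ) (r : ℕ), 0 ≤ x → x ≤ 1 - θ → ⌊Real.exp (Real.log n - ell)⌋₊ < r →
    r ≤ ⌊Real.exp (Real.log n - 3 / 4 * ell)⌋₊ → ∃ N q l r1 F1 F2 f : ℕ,
      NC n (Real.log n) ell e θ x ⌊Real.exp (Real.log n - ell)⌋₊ r N q l r1 F1 F2 f
  e1 : 3 ≤ Real.exp (θ ^ 2 * ell / 80000 * ⌊Real.exp (Real.log n - ell)⌋₊)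
  union : ((n : ℝ) + 1) ^ (2 * (Nat.sqrt n + 1)) *
    (24 * Real.exp (-(θ ^ 2 * ell / 80000 * ⌊Real.exp (Real.log n - ell)⌋₊ / 2))) ≤
      ((n : ℝ) ^ 2)⁻¹
  kill : 2 * Real.log n ≤ (3 / 2) ^ h * (θ ^ 2 * ell / 80000)
  shift : 80 * ((h : ℝ) + 1) / k₀ ≤ θ ^ 2 * e / 48
  top : ⌊Real.exp (Real.log n - 3 / 4 * ell)⌋₊ ≤ n

/-- the state after the `y`-step and `a` doublings -/
def St (F : PW (Perm (Fin n))) (p p' : ℕ) (e x E1 : ℝ) (k₀ a : ℕ) {k : ℕ}
    (z : Fin k → Alt n) : Prop :=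
  Good F (tupW z) p e ∧ Good F (tupW z) p' (x * e) ∧
    Dn F z p p' (xV x * e - 80 * ((a : ℝ) + 1) / k₀) (fun r => Real.exp (-((3 / 2) ^ a * E1 * r)))

theorem c_le (F : PW (Perm (Fin n))) {X : ℝ} (hX : 0 ≤ X)
    (h : ((n : ℝ) + 1) ^ (2 * (Nat.sqrt n + 1)) * X ≤ ((n : ℝ) ^ 2)⁻¹) :
    F.c * X ≤ ((n : ℝ) ^ 2)⁻¹ := by
  refine le_trans ?_ h
  have h4 : (F.c : ℝ) ≤ ((n : ℝ) + 1) ^ (2 * (Nat.sqrt n + 1)) := by
    exact_mod_cast Pool.Agent.Helper6.E.irr_count F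
  gcongr

/-- the `y`-step -/
theorem first_step (hO : S_OVER) (hE : S_EVT) (hL1 : S_LAW1) (hL2 : S_LAW2) (hUp : S_TRUP)
    (hLo : S_TRLO) (hSide : S_NSIDE) (hA : S_NA) (hB : S_NB) (hC : S_NCC) (hDD : S_ND)
    {ell e θ : ℝ} {h k₀ : ℕ} (c : SC n ell e θ h k₀) (F : PW (Perm (Fin n))) {x : ℝ}
    (hx0 : 0 ≤ x) (hx1 : x ≤ 1 - θ) {k : ℕ} (hk : k₀ ≤ k) {K Q : ℝ} (hK : (k : ℝ) + 1 ≤ K)
    (hQ : ((n : ℝ) ^ 2)⁻¹ ≤ Q)
    (hs : Fl (fun z : Fin k → Alt n => Good F (tupW z) ⌊Real.exp (Real.log n - ell)⌋₊ e ∧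
      Good F (tupW z) ⌊Real.exp (Real.log n - 3 / 4 * ell)⌋₊ (x * e)) Q) :
    Fl (fun z : Fin (k + 1) → Alt n => St F ⌊Real.exp (Real.log n - ell)⌋₊
      ⌊Real.exp (Real.log n - 3 / 4 * ell)⌋₊ e x (θ ^ 2 * ell / 80000) k₀ 0 z)
      (2 * K * Q) := by
  set p := ⌊Real.exp (Real.log n - ell)⌋₊ with hp
  set p' := ⌊Real.exp (Real.log n - 3 / 4 * ell)⌋₊ with hp'
  set E1 := θ ^ 2 * ell / 80000 with hE1
  have hk0 : 0 < k := lt_of_lt_of_le c.hk₀ hk
  have hθ0 := c.hθ0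
  have hell := c.hell
  have hE10 : 0 < E1 := by positivity
  have hn3 := c.n3
  have hk₀ : (0 : ℝ) < k₀ := by exact_mod_cast c.hk₀
  have hkr : (k₀ : ℝ) ≤ k := by exact_mod_cast hk
  have he0 := c.he
  have he1 := c.he1
  have hx1' : x ≤ 1 := by linarith
  have hxV : x ≤ xV x := by unfold xV; nlinarith [sq_nonneg (1 - x)]
  have hxV1 : xV x ≤ 1 := by unfold xV; nlinarith [sq_nonneg (1 - x)]
  refine step_fl _ (fun z y => Ov F z p p' (xV x * e) (fun r => Real.exp (-(2 * E1 * r))) y) _ Q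
    (((n : ℝ) ^ 2)⁻¹) K (by positivity) hQ hK hs (fun z hz => ?_) (fun z hz => ?_)
  · have h1 := ov_count F z p p' (xV x * e) (fun r => Real.exp (-(θ ^ 2 * (r * ell) / 20000)))
      (fun r => Real.exp (-(2 * E1 * r))) (24 * Real.exp (-(E1 * p / 2)))
      (by positivity) (fun r _ _ => Real.exp_pos _) (fun r hr1 _ => ?_)
      (fun i r hr1 hr2 hf hnf => ?_)
    · refine h1.trans ?_
      refine mul_le_mul_of_nonneg_left ?_ (Nat.cast_nonneg _)
      exact c_le F (by positivity) c.union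
    · have hpr : (p : ℝ) ≤ r := by exact_mod_cast hr1.le
      have h2 : Real.exp (-(θ ^ 2 * (r * ell) / 20000)) =
          Real.exp (-(2 * E1 * r)) * Real.exp (-(2 * E1 * r)) := by
        rw [← Real.exp_add]
        congr 1
        rw [hE1]
        ring
      have h3 : Real.exp (-(2 * E1 * r)) ≤ Real.exp (-(E1 * p / 2)) := by
        apply Real.exp_le_exp.2
        nlinarith
      have h4 := Real.exp_pos (-(2 * E1 * r))
      have h5 := Real.exp_pos (-(E1 * p / 2))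
      have h6 : Real.exp (-(2 * E1 * r)) ≤ 24 * Real.exp (-(E1 * p / 2)) := by linarith
      show Real.exp (-(θ ^ 2 * (r * ell) / 20000)) ≤
        24 * Real.exp (-(E1 * p / 2)) * Real.exp (-(2 * E1 * r))
      rw [h2]
      exact mul_le_mul_of_nonneg_right h6 h4.le
    · obtain ⟨N, q, l, r1, F1, F2, f, hnc⟩ := c.nc x r hx0 hx1 hr1 hr2
      exact ystep_sum hE hL1 hL2 hUp hLo hSide hA hB hC hDD hnc F hk0 z hz.1 hz.2 hr2 i hf hnf
  · refine ⟨good_del F hk0 z p e fun l => (hz l).1.1, good_del F hk0 z p' (x * e)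
      fun l => (hz l).1.2, ?_⟩
    have hsh : 80 / ((k : ℝ) + 1) ≤ 80 * ((0 : ℕ) + 1 : ℝ) / k₀ := by
      rw [Nat.cast_zero, zero_add, mul_one]
      exact div_le_div_of_nonneg_left (by norm_num) hk₀ (by linarith)
    have hsh2 : 80 * ((0 : ℕ) + 1 : ℝ) / k₀ ≤ θ ^ 2 * e / 48 := by
      refine le_trans ?_ c.shift
      have : (0 : ℝ) ≤ h := Nat.cast_nonneg _
      rw [Nat.cast_zero]
      gcongr
    have hθx : θ ^ 2 * e / 48 ≤ (xV x - x) * e := by
      unfold xV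
      have h3 : θ ^ 2 ≤ (1 - x) ^ 2 := pow_le_pow_left₀ c.hθ0.le (by linarith) 2
      nlinarith
    have h4 := dn_of_ov hO F hk0 z p p' (xV x * e) (xV x * e - 80 * ((0 : ℕ) + 1 : ℝ) / k₀)
      (fun r => Real.exp (-(2 * E1 * r))) (by nlinarith [mul_nonneg hx0 he0.le]) (by linarith)
      (by nlinarith) (fun l => (hz l).2)
    refine h4.mono le_rfl fun r hr1 _ => ?_
    have hpr : (p : ℝ) ≤ r := by exact_mod_cast hr1.le
    have h5 : Real.exp (-((3 / 2) ^ 0 * E1 * r)) =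
        Real.exp (E1 * r) * Real.exp (-(2 * E1 * r)) := by
      rw [← Real.exp_add]
      congr 1
      ring
    rw [h5]
    have h6 : 3 ≤ Real.exp (E1 * r) := by
      refine c.e1.trans (Real.exp_le_exp.2 ?_)
      rw [← hE1]
      gcongr
    have h7 := Real.exp_pos (-(2 * E1 * r))
    exact mul_le_mul_of_nonneg_right h6 h7.le

/-- one doubling -/
theorem dbl_step (hO : S_OVER) (hD : S_DBL) {ell e θ : ℝ} {h k₀ : ℕ} (c : SC n ell e θ h k₀)
    (F : PW (Perm (Fin n))) {x : ℝ} (hx0 : 0 ≤ x) (hx1 : x ≤ 1 - θ) {a : ℕ} (hah : a + 1 ≤ h)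
    {k : ℕ} (hk : k₀ ≤ k) {K Q : ℝ} (hK : (k : ℝ) + 1 ≤ K) (hQ : ((n : ℝ) ^ 2)⁻¹ ≤ Q)
    (hs : Fl (fun z : Fin k → Alt n => St F ⌊Real.exp (Real.log n - ell)⌋₊
      ⌊Real.exp (Real.log n - 3 / 4 * ell)⌋₊ e x (θ ^ 2 * ell / 80000) k₀ a z) Q) :
    Fl (fun z : Fin (k + 1) → Alt n => St F ⌊Real.exp (Real.log n - ell)⌋₊
      ⌊Real.exp (Real.log n - 3 / 4 * ell)⌋₊ e x (θ ^ 2 * ell / 80000) k₀ (a + 1) z)
      (2 * K * Q) := by
  set p := ⌊Real.exp (Real.log n - ell)⌋₊ with hp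
  set p' := ⌊Real.exp (Real.log n - 3 / 4 * ell)⌋₊ with hp'
  set E1 := θ ^ 2 * ell / 80000 with hE1
  have hk0 : 0 < k := lt_of_lt_of_le c.hk₀ hk
  have hθ0 := c.hθ0
  have hell := c.hell
  have hE10 : 0 < E1 := by positivity
  have hn3 := c.n3
  have hk₀ : (0 : ℝ) < k₀ := by exact_mod_cast c.hk₀
  have hkr : (k₀ : ℝ) ≤ k := by exact_mod_cast hk
  have he0 := c.he
  have he1 := c.he1
  have hx1' : x ≤ 1 := by linarith
  have hxV : x ≤ xV x := by unfold xV; nlinarith [sq_nonneg (1 - x)]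
  have hxV1 : xV x ≤ 1 := by unfold xV; nlinarith [sq_nonneg (1 - x)]
  set cc : ℝ := (3 / 2) ^ a * E1 with hcc
  have hcE : E1 ≤ cc := by
    rw [hcc]
    have : (1 : ℝ) ≤ (3 / 2) ^ a := one_le_pow₀ (by norm_num)
    nlinarith
  set δ : ℝ := xV x * e - 80 * ((a : ℝ) + 1) / k₀ with hδ
  refine step_fl _ (fun z y => Ov F z p p' δ (fun r => Real.exp (-(3 / 2 * cc * r)) / 3) y) _ Q
    (((n : ℝ) ^ 2)⁻¹) K (by positivity) hQ hK hs (fun z hz => ?_) (fun z hz => ?_)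
  · have h1 := ov_count F z p p' δ (fun r => 8 * Real.exp (-(cc * r)) ^ 2)
      (fun r => Real.exp (-(3 / 2 * cc * r)) / 3) (24 * Real.exp (-(E1 * p / 2)))
      (by positivity) (fun r _ _ => by positivity) (fun r hr1 _ => ?_)
      (fun i r hr1 hr2 hf hnf => ?_)
    · refine h1.trans ?_
      refine mul_le_mul_of_nonneg_left ?_ (Nat.cast_nonneg _)
      exact c_le F (by positivity) c.union
    · have hpr : (p : ℝ) ≤ r := by exact_mod_cast hr1.le
      have hp0 : (0 : ℝ) ≤ p := Nat.cast_nonneg _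
      have h2 : Real.exp (-(cc * r)) ^ 2 =
          Real.exp (-(cc * r / 2)) * Real.exp (-(3 / 2 * cc * r)) := by
        rw [← Real.exp_nat_mul, ← Real.exp_add]
        congr 1
        push_cast
        ring
      have h3 : Real.exp (-(cc * r / 2)) ≤ Real.exp (-(E1 * p / 2)) := by
        apply Real.exp_le_exp.2
        have : E1 * p ≤ cc * r := by gcongr
        linarith
      have h4 := Real.exp_pos (-(3 / 2 * cc * r))
      show 8 * Real.exp (-(cc * r)) ^ 2 ≤ _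
      rw [h2]
      nlinarith
    · exact dbl_sum hD (by omega) F z p p' δ _ hz.2.2 i r hr1 hr2 hf hnf
  · refine ⟨good_del F hk0 z p e fun l => (hz l).1.1, good_del F hk0 z p' (x * e)
      fun l => (hz l).1.2.1, ?_⟩
    have hsh : 80 / ((k : ℝ) + 1) ≤ 80 / k₀ :=
      div_le_div_of_nonneg_left (by norm_num) hk₀ (by linarith)
    have hah' : ((a + 1 : ℕ) : ℝ) ≤ h := by exact_mod_cast hah
    have hsh2 : 80 * (((a + 1 : ℕ) : ℝ) + 1) / k₀ ≤ θ ^ 2 * e / 48 := by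
      refine le_trans ?_ c.shift
      gcongr
    have hθx : θ ^ 2 * e / 48 ≤ (xV x - x) * e := by
      unfold xV
      have h3 : θ ^ 2 ≤ (1 - x) ^ 2 := pow_le_pow_left₀ c.hθ0.le (by linarith) 2
      nlinarith
    have hδ2 : xV x * e - 80 * (((a + 1 : ℕ) : ℝ) + 1) / k₀ + 80 / k₀ = δ := by
      rw [hδ]
      push_cast
      ring
    have h4 := dn_of_ov hO F hk0 z p p' δ (xV x * e - 80 * (((a + 1 : ℕ) : ℝ) + 1) / k₀)
      (fun r => Real.exp (-(3 / 2 * cc * r)) / 3) (by nlinarith [mul_nonneg hx0 he0.le])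
      (by linarith) (by
        have : 0 ≤ 80 * ((a : ℝ) + 1) / k₀ := by positivity
        nlinarith) (fun l => (hz l).2)
    refine h4.mono le_rfl fun r hr1 _ => ?_
    have h5 : Real.exp (-((3 / 2) ^ (a + 1) * E1 * r)) = Real.exp (-(3 / 2 * cc * r)) := by
      congr 1
      rw [hcc, pow_succ]
      ring
    show 3 * (Real.exp (-(3 / 2 * cc * r)) / 3) ≤ Real.exp (-((3 / 2) ^ (a + 1) * E1 * r))
    rw [h5]
    linarith

/-- a dense near-invariant space of dimension less than one is zero -/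
theorem good_of_st {ell e θ : ℝ} {h k₀ : ℕ} (c : SC n ell e θ h k₀)
    (F : PW (Perm (Fin n))) {x : ℝ} (hx0 : 0 ≤ x) (hx1 : x ≤ 1 - θ) {k : ℕ} (hk : 0 < k)
    (z : Fin k → Alt n)
    (hs : St F ⌊Real.exp (Real.log n - ell)⌋₊ ⌊Real.exp (Real.log n - 3 / 4 * ell)⌋₊ e x
      (θ ^ 2 * ell / 80000) k₀ h z) :
    Good F (tupW z) ⌊Real.exp (Real.log n - ell)⌋₊ e ∧
      Good F (tupW z) ⌊Real.exp (Real.log n - 3 / 4 * ell)⌋₊
        ((x + (1 - x) ^ 2 / 48) * e) := by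
  classical
  set p := ⌊Real.exp (Real.log n - ell)⌋₊ with hp
  set p' := ⌊Real.exp (Real.log n - 3 / 4 * ell)⌋₊ with hp'
  set E1 := θ ^ 2 * ell / 80000 with hE1
  refine ⟨hs.1, fun i hi hf => ?_⟩
  obtain ⟨r, hr0, hrp, hr1, hr2⟩ := exists_level (F.irr i) hi hf
  have he0 := c.he
  have hx1' : x ≤ 1 := by linarith [c.hθ0]
  have hxx : x + (1 - x) ^ 2 / 48 ≤ 1 := by nlinarith [sq_nonneg (1 - x)]
  by_cases hrp2 : r ≤ p
  · have h1 := hs.1 i hi (hr1.mono hrp2)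
    have h2 : ((e - (x + (1 - x) ^ 2 / 48) * e) •
        (1 : Matrix (Fin (F.D i)) (Fin (F.D i)) ℂ)).PosSemidef :=
      Matrix.PosSemidef.one.smul (by nlinarith)
    convert h1.add h2 using 1
    module
  · have h3 := hs.2.2 i r (by omega) hrp hr1 hr2
    have hn3 := c.n3
    have hn0 : (0 : ℝ) < n := by
      have : 0 < n := by omega
      exact_mod_cast this
    have hn1 : (3 : ℝ) ≤ n := by exact_mod_cast hn3
    have hD : (F.D i : ℝ) ≤ 2 * (n : ℝ) ^ r := by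
      have h4 := sum_dim_hasFix_le F (stab n r) {i} (fun j hj => by
        rw [Finset.mem_singleton] at hj; subst hj; exact hr1)
      rw [Finset.sum_singleton] at h4
      exact h4.trans (index_stab_le r (hrp.trans c.top))
    have hlt : Real.exp (-((3 / 2) ^ h * E1 * r)) * (F.D i : ℝ) < 1 := by
      have h5 : Real.exp (-((3 / 2) ^ h * E1 * r)) ≤ Real.exp (-(2 * Real.log n * r)) := by
        apply Real.exp_le_exp.2
        have h6 := c.kill
        have h7 : 2 * Real.log n * r ≤ (3 / 2) ^ h * E1 * r :=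
          mul_le_mul_of_nonneg_right h6 (Nat.cast_nonneg _)
        linarith
      have h8 : Real.exp (-(2 * Real.log n * r)) = ((n : ℝ) ^ r)⁻¹ * ((n : ℝ) ^ r)⁻¹ := by
        have h9 : (n : ℝ) ^ r = Real.exp (r * Real.log n) := by
          rw [Real.exp_nat_mul, Real.exp_log hn0]
        rw [h9, ← Real.exp_neg, ← Real.exp_add]
        congr 1
        ring
      have hnr : (3 : ℝ) ≤ (n : ℝ) ^ r := by
        calc (3 : ℝ) ≤ n := hn1
          _ = (n : ℝ) ^ 1 := (pow_one _).symm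
          _ ≤ (n : ℝ) ^ r := pow_le_pow_right₀ (by linarith) hr0
      calc Real.exp (-((3 / 2) ^ h * E1 * r)) * (F.D i : ℝ) ≤
          (((n : ℝ) ^ r)⁻¹ * ((n : ℝ) ^ r)⁻¹) * (2 * (n : ℝ) ^ r) := by
            rw [← h8]; gcongr
        _ = 2 * ((n : ℝ) ^ r)⁻¹ := by field_simp
        _ ≤ 2 * (3 : ℝ)⁻¹ := by gcongr
        _ < 1 := by norm_num
    have hcard : Fintype.card (TopIdx (tup_isHermitian (F.ρ i) z)
        (1 - (xV x * e - 80 * ((h : ℝ) + 1) / k₀))) = 0 := by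
      have h10 := lt_of_le_of_lt h3 hlt
      have h11 : Fintype.card (TopIdx (tup_isHermitian (F.ρ i) z)
        (1 - (xV x * e - 80 * ((h : ℝ) + 1) / k₀))) < 1 := by exact_mod_cast h10
      omega
    have hempty := Fintype.card_eq_zero_iff.1 hcard
    set T := avgRe fun j => F.ρ i (z j : Perm (Fin n)) with hT
    have hTH : T.IsHermitian := tup_isHermitian (F.ρ i) z
    have hone : ((1 : ℝ) • (1 : Matrix (Fin (F.D i)) (Fin (F.D i)) ℂ) - T).PosSemidef := by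
      have := one_sub_wop (F.ρ i) (F.irr i).unit (tupW_isSP hk z)
      rwa [wop_tupW (F.ρ i) (F.irr i).unit] at this
    have hgap := gap_off_top hTH hone (1 - (xV x * e - 80 * ((h : ℝ) + 1) / k₀))
    have hzero : topIso hTH (1 - (xV x * e - 80 * ((h : ℝ) + 1) / k₀)) *
        (topIso hTH (1 - (xV x * e - 80 * ((h : ℝ) + 1) / k₀)))ᴴ = 0 := by
      ext a b
      rw [Matrix.mul_apply, Matrix.zero_apply]
      exact Finset.sum_eq_zero fun j _ => (hempty.false j).elim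
    rw [hzero] at hgap
    have hθx : θ ^ 2 * e / 48 ≤ (1 - x) ^ 2 / 48 * e := by
      have h3 : θ ^ 2 ≤ (1 - x) ^ 2 := pow_le_pow_left₀ c.hθ0.le (by linarith) 2
      nlinarith
    have hle : (x + (1 - x) ^ 2 / 48) * e ≤ xV x * e - 80 * ((h : ℝ) + 1) / k₀ := by
      have := c.shift
      unfold xV
      nlinarith
    have h2 : (((xV x * e - 80 * ((h : ℝ) + 1) / k₀) - (x + (1 - x) ^ 2 / 48) * e) •
        (1 : Matrix (Fin (F.D i)) (Fin (F.D i)) ℂ)).PosSemidef :=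
      Matrix.PosSemidef.one.smul (by linarith)
    rw [wop_tupW (F.ρ i) (F.irr i).unit]
    convert hgap.add h2 using 1
    rw [sub_zero]
    module

/-- one sweep -/
theorem sweep (hO : S_OVER) (hD : S_DBL) (hE : S_EVT) (hL1 : S_LAW1) (hL2 : S_LAW2)
    (hUp : S_TRUP) (hLo : S_TRLO) (hSide : S_NSIDE) (hA : S_NA) (hB : S_NB) (hC : S_NCC)
    (hDD : S_ND) {ell e θ : ℝ} {h k₀ : ℕ} (c : SC n ell e θ h k₀) (F : PW (Perm (Fin n)))
    {x : ℝ} (hx0 : 0 ≤ x) (hx1 : x ≤ 1 - θ) {k : ℕ} (hk : k₀ ≤ k) {K Q : ℝ}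
    (hK : (k : ℝ) + 1 + h ≤ K) (hQ : ((n : ℝ) ^ 2)⁻¹ ≤ Q)
    (hs : Fl (fun z : Fin k → Alt n => Good F (tupW z) ⌊Real.exp (Real.log n - ell)⌋₊ e ∧
      Good F (tupW z) ⌊Real.exp (Real.log n - 3 / 4 * ell)⌋₊ (x * e)) Q) :
    Fl (fun z : Fin (k + 1 + h) → Alt n =>
      Good F (tupW z) ⌊Real.exp (Real.log n - ell)⌋₊ e ∧
      Good F (tupW z) ⌊Real.exp (Real.log n - 3 / 4 * ell)⌋₊ ((x + (1 - x) ^ 2 / 48) * e))
      ((2 * K) ^ (h + 1) * Q) := by
  have hQ0 : 0 < Q := by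
    have hn3 := c.n3
    have hn0 : (0 : ℝ) < n := by
      have : 0 < n := by omega
      exact_mod_cast this
    have : 0 < ((n : ℝ) ^ 2)⁻¹ := by positivity
    linarith
  have key : ∀ a, a ≤ h → Fl (fun z : Fin (k + 1 + a) → Alt n =>
      St F ⌊Real.exp (Real.log n - ell)⌋₊ ⌊Real.exp (Real.log n - 3 / 4 * ell)⌋₊ e x
        (θ ^ 2 * ell / 80000) k₀ a z) ((2 * K) ^ (a + 1) * Q) := by
    intro a
    induction a with
    | zero =>
      intro _
      have h1 := first_step hO hE hL1 hL2 hUp hLo hSide hA hB hC hDD c F hx0 hx1 hk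
        (K := K) (by have : (0 : ℝ) ≤ h := Nat.cast_nonneg _; linarith) hQ hs
      rw [zero_add, pow_one]
      exact h1
    | succ a ih =>
      intro ha
      have ha' : ((a + 1 : ℕ) : ℝ) ≤ h := by exact_mod_cast ha
      push_cast at ha'
      have hge : ((n : ℝ) ^ 2)⁻¹ ≤ (2 * K) ^ (a + 1) * Q := by
        have hk0' : (0 : ℝ) ≤ k := Nat.cast_nonneg _
        have hh0' : (0 : ℝ) ≤ h := Nat.cast_nonneg _
        have : (1 : ℝ) ≤ (2 * K) ^ (a + 1) := one_le_pow₀ (by linarith)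
        nlinarith
      have h1 := dbl_step hO hD c F hx0 hx1 ha (k := k + 1 + a) (by omega) (K := K)
        (by push_cast; linarith) hge (ih (by omega))
      have h2 : 2 * K * ((2 * K) ^ (a + 1) * Q) = (2 * K) ^ (a + 1 + 1) * Q := by ring
      rw [h2] at h1
      exact h1
  exact (key h le_rfl).mono (fun z hz => good_of_st c F hx0 hx1 (by omega) z hz) le_rfl

end Pool.Agent.Helper73.LL
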