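import Pool.Agent.Helper73.LL.Loo

/-! The fresh element reduces the overlap. -/

set_option linter.unusedSectionVars false

namespace Pool.Agent.Helper73.LL

open Matrix Equiv Filter Topology Pool.Agent.Helper15.An Pool.Agent.Helper6.W
  Pool.Agent.Helper6.FixK
open scoped ComplexOrder

variable {n : ℕ}

section weights
variable {D : ℕ} (ρ : Perm (Fin n) →* Matrix (Fin D) (Fin D) ℂ) (hu : ∀ g, (ρ g)ᴴ * ρ g = 1)
include hu

theorem wop_herm {ν : Perm (Fin n) → ℝ} (hs : ∀ g, ν g⁻¹ = ν g) : (wop ρ ν).IsHermitian := by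
  unfold wop Matrix.IsHermitian
  rw [conjTranspose_sum, ← Equiv.sum_comp (Equiv.inv (Perm (Fin n)))]
  refine Finset.sum_congr rfl fun g _ => ?_
  rw [conjTranspose_smul, rho_conj ρ hu]
  simp [hs]

theorem mass_sub_wop {ν : Perm (Fin n) → ℝ} (h0 : ∀ g, 0 ≤ ν g) (hs : ∀ g, ν g⁻¹ = ν g)
    {a : ℝ} (ha : ∑ g, ν g ≤ a) :
    (a • (1 : Matrix (Fin D) (Fin D) ℂ) - wop ρ ν).PosSemidef := by
  have hc : ∑ g, ν g • (ρ g)ᴴ = wop ρ ν := by
    have := wop_herm ρ hu hs
    unfold wop Matrix.IsHermitian at this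
    rw [conjTranspose_sum] at this
    rw [wop]
    refine Eq.trans ?_ this
    refine Finset.sum_congr rfl fun g _ => ?_
    rw [conjTranspose_smul]; simp
  have h1 : (a • (1 : Matrix (Fin D) (Fin D) ℂ) - wop ρ ν) =
      (a - ∑ g, ν g) • (1 : Matrix (Fin D) (Fin D) ℂ) +
      ∑ g, (ν g / 2) • ((1 - ρ g)ᴴ * (1 - ρ g)) := by
    have h2 : ∀ g, (ν g / 2) • ((1 - ρ g)ᴴ * (1 - ρ g)) =
        ν g • (1 : Matrix (Fin D) (Fin D) ℂ) - (1 / 2 : ℝ) • (ν g • (ρ g)ᴴ) -
          (1 / 2 : ℝ) • (ν g • ρ g) := by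
      intro g
      rw [conjTranspose_sub, conjTranspose_one, Matrix.sub_mul, Matrix.mul_sub, Matrix.mul_sub,
        hu g]
      simp only [Matrix.one_mul, Matrix.mul_one]
      module
    simp_rw [h2]
    rw [Finset.sum_sub_distrib, Finset.sum_sub_distrib, ← Finset.sum_smul,
      ← Finset.smul_sum, ← Finset.smul_sum, hc]
    rw [← wop]
    module
  rw [h1]
  refine (Matrix.PosSemidef.one.smul (by linarith)).add ?_
  exact posSemidef_sum _ fun g _ =>
    (posSemidef_conjTranspose_mul_self _).smul (by have := h0 g; positivity)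

end weights

theorem fixc_inv (g : Perm (Fin n)) : fixc g⁻¹ = fixc g := by
  unfold fixc
  congr 1
  ext x
  simp only [Finset.mem_filter, Finset.mem_univ, true_and]
  rw [Perm.inv_eq_iff_eq, eq_comm]

/-- symmetric law of powers of the lazy walk -/
theorem exists_sym_law {μ : Perm (Fin n) → ℝ} (hμ : IsSP (Alt n : Set (Perm (Fin n))) μ)
    (l : ℕ) : ∃ κ : Perm (Fin n) → ℝ, IsSP (Alt n : Set (Perm (Fin n))) κ ∧
      ∀ (D : ℕ) (ρ : Perm (Fin n) →* Matrix (Fin D) (Fin D) ℂ), (∀ g, (ρ g)ᴴ * ρ g = 1) →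
        ((1 / 2 : ℝ) • ((1 : Matrix (Fin D) (Fin D) ℂ) + wop ρ μ)) ^ l = wop ρ κ := by
  obtain ⟨κ, h0, h1, h2, h3⟩ := exists_law (Alt n) hμ l
  refine ⟨fun g => (1 / 2) * (κ g + κ g⁻¹), ⟨fun g => ?_, ?_, fun g => ?_, fun g hg => ?_⟩,
    fun D ρ hu => ?_⟩
  · have := h0 g
    have := h0 g⁻¹
    positivity
  · rw [← Finset.mul_sum, Finset.sum_add_distrib, h1]
    have : ∑ g : Perm (Fin n), κ g⁻¹ = ∑ g, κ g := Equiv.sum_comp (Equiv.inv _) κ
    rw [this, h1]
    norm_num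
  · rw [inv_inv]; ring
  · have h4 : g⁻¹ ∉ Alt n := fun h => hg (by simpa using (Alt n).inv_mem h)
    have h5 : g ∉ Alt n := hg
    show (1 / 2) * (κ g + κ g⁻¹) = 0
    rw [h2 g h5, h2 g⁻¹ h4]
    norm_num
  · have h4 := h3 D ρ
    have hT := wop_isHermitian ρ hu hμ
    have h5 : (((1 / 2 : ℝ) • ((1 : Matrix (Fin D) (Fin D) ℂ) + wop ρ μ)) ^ l).IsHermitian := by
      refine Matrix.IsHermitian.pow ?_ l
      unfold Matrix.IsHermitian
      rw [conjTranspose_smul, conjTranspose_add, conjTranspose_one, hT.eq]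
      simp
    rw [h4] at h5
    have h6 : ∑ g, κ g⁻¹ • ρ g = (wop ρ κ)ᴴ := by
      unfold wop
      rw [conjTranspose_sum, ← Equiv.sum_comp (Equiv.inv (Perm (Fin n)))]
      refine Finset.sum_congr rfl fun g _ => ?_
      rw [conjTranspose_smul, rho_conj ρ hu]
      simp
    rw [h4]
    have h7 : wop ρ (fun g => (1 / 2) * (κ g + κ g⁻¹)) =
        (1 / 2 : ℝ) • (wop ρ κ + ∑ g, κ g⁻¹ • ρ g) := by
      unfold wop
      rw [← Finset.sum_add_distrib, Finset.smul_sum]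
      refine Finset.sum_congr rfl fun g _ => ?_
      rw [← add_smul, smul_smul]
    rw [h7, h6, h5.eq]
    module

theorem not_triv_of_level {D : ℕ} {ρ : Perm (Fin n) →* Matrix (Fin D) (Fin D) ℂ} (hD : 0 < D)
    {r : ℕ} (hnf : ¬ HasFix ρ (stab n (r - 1))) : ¬ Triv ρ (Alt n) := by
  intro h
  apply hnf
  refine ⟨fun _ => 1, fun h2 => ?_, fun σ => ?_⟩
  · have := congrFun h2 ⟨0, hD⟩
    simp at this
  · have h3 := h ⟨σ.1, σ.2.1⟩
    have h4 : ρ (σ : Perm (Fin n)) = 1 := h3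
    rw [h4, one_mulVec]

/-- the sum of the overlaps over the fresh element -/
theorem ystep_sum (hE : S_EVT) (hL1 : S_LAW1) (hL2 : S_LAW2) (hUp : S_TRUP) (hLo : S_TRLO)
    (hSide : S_NSIDE) (hA : S_NA) (hB : S_NB) (hC : S_NCC) (hDD : S_ND)
    {L ell e θ x : ℝ} {p p' r N q l r1 F1 F2 f : ℕ}
    (c : NC n L ell e θ x p r N q l r1 F1 F2 f) (F : PW (Perm (Fin n))) {k : ℕ} (hk : 0 < k)
    (z : Fin k → Alt n) (hg1 : Good F (tupW z) p e) (hg2 : Good F (tupW z) p' (x * e))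
    (hrp : r ≤ p') (i : Fin F.c) (hf : HasFix (F.ρ i) (stab n r))
    (hnf : ¬ HasFix (F.ρ i) (stab n (r - 1))) :
    ∑ y : Alt n, (ovc (F.ρ i (y : Perm (Fin n))) (topP_isHermitian
        (tup_isHermitian (F.ρ i) z) (1 - xV x * e)) : ℝ) ≤
      Fintype.card (Alt n) * (Real.exp (-(θ ^ 2 * (r * ell) / 20000)) * F.D i) := by
  obtain ⟨s1, s2, s3, s4, s5, s6, s7, s8, s9, s10, s11, s12, s13, s14⟩ :=
    hSide n L ell e θ x p r N q l r1 F1 F2 f c
  have hu := (F.irr i).unit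
  have hDp := (F.irr i).pos
  have hDr : (0 : ℝ) < F.D i := by exact_mod_cast hDp
  have hμ := tupW_isSP hk z
  have hn2 : 2 ≤ n := by omega
  obtain ⟨κ, hκ, hκ2⟩ := exists_sym_law hμ (2 * l)
  have hx0 := c.hx
  have hx1 : x ≤ 1 := by
    have h1 := c.hx1
    have h2 := c.hθ
    have h3 := c.hL
    have h4 := c.hell
    have h5 : 0 < θ := by
      by_contra hcon
      rw [not_lt] at hcon
      have : θ * L ≤ 0 := mul_nonpos_of_nonpos_of_nonneg hcon (by linarith)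
      linarith
    linarith
  have he0 := c.he
  have he1 := c.he1
  have hxe1 : x * e ≤ 1 := by nlinarith
  have hxe0 : 0 ≤ x * e := by positivity
  -- lazy walk of all representations
  have hlow : ∀ j : Fin F.c, ¬ Triv (F.ρ j) (Alt n) → ∀ s, s ≤ p → HasFix (F.ρ j) (stab n s) →
      ∀ m : ℕ, ((((1 / 2 : ℝ) • ((1 : Matrix (Fin (F.D j)) (Fin (F.D j)) ℂ) +
        wop (F.ρ j) (tupW z))) ^ m).PosSemidef ∧
      (((1 - e / 2) ^ m) • (1 : Matrix (Fin (F.D j)) (Fin (F.D j)) ℂ) -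
        ((1 / 2 : ℝ) • ((1 : Matrix (Fin (F.D j)) (Fin (F.D j)) ℂ) +
        wop (F.ρ j) (tupW z))) ^ m).PosSemidef) := by
    intro j hj s hs hfs m
    have hT := wop_isHermitian (F.ρ j) (F.irr j).unit hμ
    have hT2 := wop_add_one (F.ρ j) (F.irr j).unit hμ
    exact ⟨lazy_pow_posSemidef hT hT2 _, lazy_pow_le hT e hT2 (hg1 j hj (hfs.mono hs)) _⟩
  have he2 : (0 : ℝ) ≤ 1 - e / 2 := by linarith
  -- bad letters
  have hbad := hL1 n F κ r1 F2 ((1 - e / 2) ^ (2 * l)) (by omega) (by omega) hκ.nonneg hκ.sum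
    (fun g hg => hκ.supp g hg) (pow_nonneg he2 _) s11 (fun j hj hfj => by
      rw [← hκ2 _ _ (F.irr j).unit]
      exact hlow j hj r1 (by omega) hfj (2 * l))
  have hbad2 := hL2 n F κ (2 * r1) F2 ((1 - e / 2) ^ (4 * l)) (by omega) (by omega) hκ.nonneg
    hκ.sum (fun g hg => hκ.supp g hg) (pow_nonneg he2 _) s12 (fun j hj hfj => by
      rw [← hκ2 _ _ (F.irr j).unit, ← pow_add, show 2 * l + 2 * l = 4 * l by ring]
      exact hlow j hj (2 * r1) (by omega) hfj (4 * l))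
  set a : ℝ := 2 * (2 / (F2 : ℝ)) ^ r1 with ha
  have ha0 : 0 ≤ a := by positivity
  -- the event
  have hev := hE n N q F1 F2 f κ _ (by have := c.hN4; omega) s2 s6 s8 s9 s10 hκ.nonneg hκ.sum
    (by positivity) hbad2
  -- the trace
  have hpsd : (wop (F.ρ i) κ).PosSemidef := by
    rw [← hκ2 _ _ hu]
    exact lazy_pow_posSemidef (wop_isHermitian (F.ρ i) hu hμ) (wop_add_one (F.ρ i) hu hμ) _
  have hnt := not_triv_of_level hDp hnf
  have hX : (((1 - x * e / 2) ^ (2 * l)) • (1 : Matrix (Fin (F.D i)) (Fin (F.D i)) ℂ) -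
      wop (F.ρ i) κ).PosSemidef := by
    rw [← hκ2 _ _ hu]
    exact lazy_pow_le (wop_isHermitian (F.ρ i) hu hμ) (x * e) (wop_add_one (F.ρ i) hu hμ)
      (hg2 i hnt (hf.mono hrp)) _
  have hr0 : 0 < r := by have := c.hpr; omega
  have hn0 : (0 : ℝ) < n := by
    have : 0 < n := by omega
    exact_mod_cast this
  have hup := hUp n (F.D i) (F.ρ i) κ N q F1 F2 ((1 - x * e / 2) ^ (2 * l)) a
    ((2 * F1 / n + 14 * Real.sqrt (r / n)) ^ r) _ hn2 hu hκ.nonneg hκ.sum hpsd hX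
    (pow_nonneg (by linarith) _) s1 hbad (by positivity) (fun g hg => by
      refine (char_bound_level hr0 s7 (F.irr i) hf hnf g).trans ?_
      refine mul_le_mul_of_nonneg_left ?_ (Nat.cast_nonneg _)
      refine pow_le_pow_left₀ (by positivity) ?_ r
      have h2 : (fixc g : ℝ) ≤ F1 := by exact_mod_cast hg.le
      gcongr) hev
  -- the numerical bounds
  have nA := hA n L ell e θ x p r N q l r1 F1 F2 f c
  have nB := hB n L ell e θ x p r N q l r1 F1 F2 f c
  have nC := hC n L ell e θ x p r N q l r1 F1 F2 f c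
  have nD := hDD n L ell e θ x p r N q l r1 F1 F2 f c
  set V : ℝ := ((1 - xV x * e / 2) ^ (4 * l) / 8) ^ N with hV
  set E : ℝ := Real.exp (-(θ ^ 2 * (r * ell) / 20000)) with hEdef
  have hxV0 : 0 ≤ xV x := by unfold xV; positivity
  have hxV1 : xV x ≤ 1 := by
    unfold xV
    nlinarith [sq_nonneg (1 - x)]
  have hv0 : 0 < 1 - xV x * e / 2 := by nlinarith
  have hVpos : 0 < V := by positivity
  have htot : 2 ^ N * (a ^ (q + 1) * ((1 - x * e / 2) ^ (2 * l) + a) ^ (2 * N - (q + 1))) +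
      2 * ((8 * (2 * N + 2 : ℝ) ^ 8 / F1) ^ f +
        (((2 * N : ℝ) ^ 2) * (2 * (2 / (F2 : ℝ)) ^ (2 * r1))) ^ (N - 2 * q)) +
      (2 * F1 / n + 14 * Real.sqrt (r / n)) ^ r ≤ V * E := by linarith
  -- lower bound
  have hTH := wop_isHermitian (F.ρ i) hu hμ
  have hlo : ∀ y : Alt n, (ovc (F.ρ i (y : Perm (Fin n))) (topP_isHermitian
        (tup_isHermitian (F.ρ i) z) (1 - xV x * e)) : ℝ) * V ≤
      (trace ((wop (F.ρ i) (gd κ F2) * ((F.ρ i (y : Perm (Fin n)))ᴴ * wop (F.ρ i) κ *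
        F.ρ i (y : Perm (Fin n)))) ^ N)).re := by
    intro y
    have hTeq : (avgRe fun j => F.ρ i (z j : Perm (Fin n))) = wop (F.ρ i) (tupW z) :=
      (wop_tupW (F.ρ i) hu z).symm
    have hone : ((1 : ℝ) • (1 : Matrix (Fin (F.D i)) (Fin (F.D i)) ℂ) -
        avgRe fun j => F.ρ i (z j : Perm (Fin n))).PosSemidef := by
      rw [hTeq]; exact one_sub_wop (F.ρ i) hu hμ
    have hmone : ((avgRe fun j => F.ρ i (z j : Perm (Fin n))) -
        (-1 : ℝ) • (1 : Matrix (Fin (F.D i)) (Fin (F.D i)) ℂ)).PosSemidef := by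
      rw [hTeq]; exact wop_add_one (F.ρ i) hu hμ
    have hsym : ∀ g, gd κ F2 g⁻¹ = gd κ F2 g := by
      intro g
      unfold gd
      rw [fixc_inv, hκ.symm]
    have hpow : ((1 / 2 : ℝ) • ((1 : Matrix (Fin (F.D i)) (Fin (F.D i)) ℂ) +
        avgRe fun j => F.ρ i (z j : Perm (Fin n)))) ^ (2 * l) = wop (F.ρ i) κ := by
      rw [hTeq]; exact hκ2 _ _ hu
    have h1 := hLo (Fin (F.D i)) (avgRe fun j => F.ρ i (z j : Perm (Fin n)))
      (wop (F.ρ i) (gd κ F2)) (F.ρ i (y : Perm (Fin n))) (tup_isHermitian (F.ρ i) z)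
      (xV x * e) a l N hone hmone (hu _) (by positivity) (by nlinarith) (wop_herm (F.ρ i) hu hsym)
      (by
        rw [hpow]
        have h2 : wop (F.ρ i) (gd κ F2) - (wop (F.ρ i) κ -
            a • (1 : Matrix (Fin (F.D i)) (Fin (F.D i)) ℂ)) =
            a • (1 : Matrix (Fin (F.D i)) (Fin (F.D i)) ℂ) -
              wop (F.ρ i) (fun g => κ g - gd κ F2 g) := by
          have h3 : wop (F.ρ i) (fun g => κ g - gd κ F2 g) = wop (F.ρ i) κ -
              wop (F.ρ i) (gd κ F2) := by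
            unfold wop
            rw [← Finset.sum_sub_distrib]
            refine Finset.sum_congr rfl fun g _ => ?_
            rw [sub_smul]
          rw [h3]
          abel
        rw [h2]
        refine mass_sub_wop (F.ρ i) hu (fun g => ?_) (fun g => ?_) ?_
        · show 0 ≤ κ g - gd κ F2 g
          unfold gd
          have := hκ.nonneg g
          split_ifs <;> linarith
        · show κ g⁻¹ - gd κ F2 g⁻¹ = κ g - gd κ F2 g
          rw [hsym, hκ.symm]
        · refine le_trans (le_of_eq ?_) hbad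
          refine Finset.sum_congr rfl fun g _ => ?_
          unfold gd
          by_cases h : fixc g < F2
          · rw [if_pos h, if_neg (not_le.2 h)]; ring
          · rw [if_neg h, if_pos (not_lt.1 h)]; ring)
      ha0 s13 c.hNev
    rw [hpow] at h1
    exact h1
  have hsum : (∑ y : Alt n, (ovc (F.ρ i (y : Perm (Fin n))) (topP_isHermitian
        (tup_isHermitian (F.ρ i) z) (1 - xV x * e)) : ℝ)) * V ≤
      (Fintype.card (Alt n) * (E * F.D i)) * V := by
    rw [Finset.sum_mul]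
    refine (Finset.sum_le_sum fun y _ => hlo y).trans (hup.trans ?_)
    have h2 : (0 : ℝ) ≤ Fintype.card (Alt n) := Nat.cast_nonneg _
    calc (Fintype.card (Alt n) : ℝ) * (F.D i * (2 ^ N * (a ^ (q + 1) *
          ((1 - x * e / 2) ^ (2 * l) + a) ^ (2 * N - (q + 1))) +
        2 * ((8 * (2 * N + 2 : ℝ) ^ 8 / F1) ^ f +
          (((2 * N : ℝ) ^ 2) * (2 * (2 / (F2 : ℝ)) ^ (2 * r1))) ^ (N - 2 * q)) +
        (2 * F1 / n + 14 * Real.sqrt (r / n)) ^ r)) ≤
        Fintype.card (Alt n) * (F.D i * (V * E)) := by gcongr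
      _ = _ := by ring
  exact le_of_mul_le_mul_right hsum hVpos

end Pool.Agent.Helper73.LL
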